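import Pool.Agent.H92.V0F.Vsl

/-!
# The class end with a conclusion on a part of each event

`V0OutP`: the conclusion of a class theorem on a part of the event. `v0_clsEndP`: a class whose large
events have it is empty.
-/

set_option autoImplicit false

namespace Pool.ST76

open Finset Real MvPolynomial
open Pool.Agent.H49.Ent Pool.Agent.H32.Dense Pool.STK Pool.KA Pool.KSAT Pool.K2S Pool.PB Pool.S6C
open Pool.GEN Pool.CHT Pool.CHX Pool.ISO Pool.D2R Pool.V0F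
open Pool.AJW (CfB)
open Pool.GRD (LbP)
open Pool.BFL (Pb)
open Pool.PB.Trl (rt)
open Pool.LBT (ThrOf)

variable {m : ℕ}

/-- **The conclusion of a class theorem on a part**: a closed gradient of the target. `K`: the degree
of the closed gradients, `K₂`: the mass of the part. -/
def V0OutP {J : ℕ} (F : Fam m J) (c : ℕ → Fin m) (r K : ℕ) (w φ ι s₁ K₂ : ℝ) (A : F.Ω → Prop)
    (g : ℕ → ℕ) (Q G' : PtT F → ℕ → MvPolynomial (Option (Fin m)) ℝ) : Prop :=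
  ∃ (B : F.Ω → Prop) (W : ℕ) (mu : LnT F → ℕ → Polynomial ℝ), Sub B A ∧
    Pe F.p A ≤ K₂ * Pe F.p B ∧ ⌊w * J⌋₊ ≤ W ∧ (W : ℝ) ≤ (w + 2 * φ) * J ∧
    (∀ t i, (mu t i).natDegree ≤ K) ∧
    (∀ ω, B ω → ∀ i < r, |gnh F c r g Q G' ω i| ≤ 2 ^ (ι * J)) ∧
    (∀ ω ν, B ω → B ν → ptr F J ω = ptr F J ν → ∀ i < r,
      |gnh F c r g Q G' ω i - gnh F c r g Q G' ν i| ≤ 2 ^ (-(s₁ * J))) ∧
    ∀ ω, B ω → ∀ i < r, |gnh F c r g Q G' ω i - (mu (slam F W ω) i).eval (rt F W ω)| ≤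
      2 ^ (-(s₁ * J))

/-- **The class end**, any target, the conclusion on a part. -/
theorem v0_clsEndP (m D K r₁ r : ℕ) (hr₁ : r₁ ≤ r) (hD : 1 ≤ D) : ∃ C : ℕ, 1 ≤ C ∧ ∀ {S : PCl m}
    {P : List (Fin m) × Fin m → ℝ → ℝ → ℝ} {θ : ℝ} {c : ℕ → Fin m}
    {C₀ a' Eb ηm ζ : ℝ} {o η σ r₀ : ℕ → ℝ} {lv bb : ℕ → ℕ → ℝ} {Dr N nb n : ℕ} {a w : ℚ}
    {q₁ s₁ h h₂ e φ ι K₁ K₂ κc : ℝ} (zz : ℕ → ℕ → ℕ → ℕ), S.Ne → TmC S 6 →
    (∀ (τ : ℝ) (J : ℕ) (F : Fam m J) (A : F.Ω → Prop), S.St τ J F A → 0 < Pe F.p A) →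
    ThrOf (chsys m θ) S P → TmH S → Set.InjOn c (Set.Iio (r + 1)) → D ≤ Dr →
    nb + n ≤ N → (∀ k < nb, o k ≤ o (k + 1)) → 0 < ζ → C * (C₀ * ηm) ≤ ζ →
    (∀ k ≤ nb, ∀ l < r₁, C * |lv k l - o k - (lv nb l - o nb)| ≤ ζ) →
    (∀ k, k = nb ∨ k = nb + n → o k + C * ζ ≤ 1 ∧ ∀ l ≤ r, C * ζ ≤ lv k l ∧
      Eb + lv k l + C * ζ ≤ 1) → 0 ≤ o 0 → o 0 < 1 → 0 ≤ o nb → o nb < 1 →
    -- the numbers of the end
    o nb ≤ w → w ≤ o nb + ζ → 0 ≤ w → w ≤ a → a ≤ 1 → w < 1 → e < θ * w →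
    0 < h → 0 ≤ h₂ → 0 ≤ q₁ → bet P c r a w + h ≤ 1 →
    Eb + C * ζ + 2 * h₂ ≤ e →
    bet P c r a w + h + C * ζ + 2 * h₂ ≤ lv nb r + s₁ + (a - w) →
    bet P c r a w + h + C * ζ + 2 * h₂ ≤ lv (nb + n) r - (o (nb + n) - w) + (a - w) →
    bet P c r a w + h + C * ζ + 2 * h₂ + q₁ ≤ lv nb r + 2 * (a - w) → q₁ + C * ζ ≤ a - w →
    (∀ l ≤ r, Eb + lv nb l + 2 * (a - w) + C * ζ ≤ 1) →
    (∀ l ≤ r, Eb + lv nb l + max s₁ 0 + 2 * q₁ + C * ζ ≤ 1) →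
    (∀ j < r, lv nb j ≤ lv nb r + ζ + h₂ ∨
      bet P c r a w + h ≤ lv nb r + (a - w) + ζ + h₂) →
    o nb + 2 * φ ≤ w → 0 < ι → ι < ζ → 0 < s₁ → 0 < K₁ → 0 < K₂ → 0 < κc →
    -- the radii
    (∃ J₁ : ℕ, ∀ J ≥ J₁, (∀ k ≤ N, ∀ i ≤ 2, r₀ k * J ≤ zz J k i ∧
        zz J k i ≤ ⌊a' * J⌋₊ - ⌊o k * J⌋₊) ∧
      (∀ k < nb + n, zz J k 0 = ⌊o (k + 1) * J⌋₊ - ⌊o k * J⌋₊) ∧ (zz J nb 1 : ℝ) ≤ q₁ * J ∧
      2 * φ * J + 1 ≤ zz J nb 1 ∧ ⌊o nb * J⌋₊ + zz J nb 2 ≤ ⌊(a : ℝ) * J⌋₊ ∧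
      (a : ℝ) * J ≤ ⌊o nb * J⌋₊ + zz J nb 2 + ζ * J + 2) →
    -- the windows
    (∀ κ : ℝ, 0 < κ → Bas S (fun J F A => ∀ z : ℕ → ℕ → ℕ,
      (∀ k ≤ N, ∀ i ≤ 2, r₀ k * J ≤ z k i ∧ z k i ≤ ⌊a' * J⌋₊ - ⌊o k * J⌋₊) →
      ∃ (B : F.Ω → Prop) (g₀ : ℕ → ℕ → ℕ) (G : ℕ → PtT F → ℕ → MvPolynomial (Option (Fin m)) ℝ)
        (H : ℕ → LnT F → ℕ → MvPolynomial (Option (Fin m)) ℝ), Sub B A ∧
        Pe F.p A ≤ K₁ * Pe F.p B ∧
        WinB F c r D Dr N 2 C₀ a' Eb ηm o η σ lv bb κ z B g₀ G H)) →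
    -- the class theorem
    Bas S (fun J F A => ∀ {κ : ℝ} {g₀ : ℕ → ℕ → ℕ}
      {Gc : ℕ → PtT F → ℕ → MvPolynomial (Option (Fin m)) ℝ}
      {H : ℕ → LnT F → ℕ → MvPolynomial (Option (Fin m)) ℝ}, κ ≤ κc →
      WinB F c r D Dr N 2 C₀ a' Eb ηm o η σ lv bb κ (zz J) A g₀ Gc H →
      (∀ l < r₁, CfB F ⌊o 0 * J⌋₊ 1 (c l) A (fun s => s) (fun s => H 0 s l)) →
      (∀ l, r₁ ≤ l → l ≤ r → CfB F ⌊o nb * J⌋₊ 1 (c l) A (fun s => s) (fun s => H nb s l)) →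
      V0OutP F c r K (o nb) φ ι s₁ K₂ A (g₀ nb) (hyb Gc 0 nb r₁) (Gc (nb + n))) →
    False := by
  obtain ⟨Ca, hCa, had⟩ := ad_noG m K D D r hD
  obtain ⟨Cr, hCr, hro⟩ := winb_rout m D r hD
  obtain ⟨Cn, hCn, hnear⟩ := v0_near D r₁
  obtain ⟨C, hC⟩ : ∃ C : ℕ, C = ⌈Ca⌉₊ + Cr + 4 * Cn := ⟨_, rfl⟩
  have hCR : (C : ℝ) = ⌈Ca⌉₊ + Cr + 4 * Cn := by rw [hC]; push_cast; ring
  have hCaC : Ca ≤ C := by
    rw [hCR]
    have := Nat.le_ceil Ca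
    have h1 : (0 : ℝ) ≤ Cr := Nat.cast_nonneg _
    have h2 : (0 : ℝ) ≤ Cn := Nat.cast_nonneg _
    linarith
  have hCr1 : (1 : ℝ) ≤ Cr := by exact_mod_cast hCr
  have hCn1 : (1 : ℝ) ≤ Cn := by exact_mod_cast hCn
  have hCrC : (Cr : ℝ) ≤ C := by
    rw [hCR]
    have : (0 : ℝ) ≤ ⌈Ca⌉₊ := Nat.cast_nonneg _
    linarith
  have hCnC : 4 * (Cn : ℝ) ≤ C := by
    rw [hCR]
    have : (0 : ℝ) ≤ ⌈Ca⌉₊ := Nat.cast_nonneg _
    linarith
  have hC1 : (1 : ℝ) ≤ C := by linarith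
  refine ⟨C, by omega, ?_⟩
  intro S P θ c C₀ a' Eb ηm ζ o η σ r₀ lv bb Dr N nb n a w q₁ s₁ h h₂ e φ ι K₁ K₂ κc zz hne htm
    hpos hP
    hT hc hDr hN hmo hζ hCη hsl hroom ho00 ho01 hob0 hob1 w1 w2 w3 w4 w5 w6 w7 hh hh₂ hq₁ hb1
    hE1 g1 g2 g3 g4 g5 g6 g7 hφw hι hιζ hs₁ hK₁ hK₂ hκc hzz hwin hV
  have hCaζ : Ca * ζ ≤ C * ζ := mul_le_mul_of_nonneg_right hCaC hζ.le
  have hCrζ : ζ ≤ C * ζ := le_mul_of_one_le_left hζ.le hC1
  -- the exponent of the constants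
  have hCη' : ∀ x : ℝ, 1 ≤ x → x ≤ C → x * (C₀ * ηm) ≤ ζ := by
    intro x h1 h2
    rcases le_or_gt (C₀ * ηm) 0 with h4 | h4
    · have : x * (C₀ * ηm) ≤ 0 := mul_nonpos_of_nonneg_of_nonpos (by linarith) h4
      linarith
    · exact (mul_le_mul_of_nonneg_right h2 h4.le).trans hCη
  have hCη1 : C₀ * ηm ≤ ζ := by
    have := hCη' 1 le_rfl hC1
    rwa [one_mul] at this
  -- the outputs of the balls
  obtain ⟨ζr, hζr⟩ : ∃ ζr : ℝ, ζr = ζ / Cr := ⟨_, rfl⟩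
  have hζr0 : 0 < ζr := by rw [hζr]; positivity
  have hζrC : Cr * ζr = ζ := by rw [hζr]; field_simp
  obtain ⟨κ₁, hκ₁, hro⟩ := hro (S := S) (c := c) (C₀ := C₀) (a := a') (Eb := Eb) (ηm := ηm)
    (ζ := ζr) (κ₀ := 1 / (2 * (K₁ * K₂))) (o := o) (η := η) (σ := σ) (lv := lv) (Dr := Dr) (N := N)
    (M := 2) [nb, nb + n] hT hc hDr hζr0 (by positivity) (by
      rw [hζr, le_div_iff₀ (by positivity), mul_comm]
      exact hCη' _ hCr1 hCrC) (fun k hk => by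
      have hk' : k = nb ∨ k = nb + n := by
        simpa using hk
      obtain ⟨a1, a2⟩ := hroom k hk'
      refine ⟨by omega, by rw [hζrC]; linarith, fun l hl => ⟨?_, ?_⟩⟩
      · rw [hζrC]
        linarith [(a2 l hl).1]
      · rw [hζrC]
        linarith [(a2 l hl).2])
  obtain ⟨κ', hκe⟩ : ∃ κ' : ℝ, κ' = min κ₁ (κc / 2) := ⟨_, rfl⟩
  have hκ' : 0 < κ' := by
    rw [hκe]
    exact lt_min hκ₁ (by positivity)
  have hκ'1 : κ' ≤ κ₁ := by rw [hκe]; exact min_le_left _ _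
  have hκ'2 : κ' ≤ κc / 2 := by rw [hκe]; exact min_le_right _ _
  -- the closed gradient
  obtain ⟨δ, hδ, had⟩ := had (S := S) (P := P) (θ := θ) (c := c) (C₀ := C₀) (a' := a') (Eb := Eb)
    (ηm := ηm) (ζ := ζ) (o := o) (η := η) (σ := σ) (lv := lv) (r := r) (Dr := Dr) (N := N)
    (M := 2) (k₀ := nb) (n := nb + n) (a := a) (w := w) (q₁ := q₁) (s₁ := s₁) (h := h) (h₂ := h₂)
    (e := e) hP hT hc le_rfl (by omega) hN w1 w2 w3 w4 w5 w6 w7 hh hh₂ hζ hCη1 hq₁ hb1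
    (by linarith) (by linarith) (by linarith) (by linarith) (by linarith)
    (fun l hl => by linarith [g5 l hl]) (fun l hl => by linarith [g6 l hl]) g7
  -- the bounded coefficients
  have hcf := Pool.V0C62.cfb_stmt htm hpos D (r + 1) (E := 1) (fun k => if k < r₁ then o 0 else o nb)
    (fun k => (range k).image c) c one_pos (fun k _ => by
      by_cases hk : k < r₁
      · simp only [if_pos hk]
        exact ⟨ho00, ho01⟩
      · simp only [if_neg hk]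
        exact ⟨hob0, hob1⟩)
  have hcf' := bas_ev hcf (κ := 1 / K₁) (by positivity)
  have hV' := bas_ev hV (κ := 1 / (2 * K₁)) (by positivity)
  obtain ⟨J₁, hzz⟩ := hzz
  obtain ⟨J₂, hJ₂⟩ := exists_nat_gt (max (((nb : ℝ) + 4) / (ζ / (2 * Cn)))
    (max (2 / (ζ - ι)) (Real.log (32 ^ 2 * (2 * (K₁ * K₂)) + 1) / δ)))
  refine Pool.LBT.bas_false hne (Φ := fun _ _ _ => False) ?_ ⟨1, one_pos, 0,
    fun _ _ _ _ _ h => h⟩
  refine Bas.mono (max (max J₁ J₂) 1) (((hwin κ' hκ').and (hcf'.and hV')).and (hro.and (had.and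
    (Bas.mono 0 (Pool.GRW.tmc_bas htm one_pos) fun J _ F A h1 => h1.1)))) ?_
  rintro J hJ F A ⟨⟨b1, b2, b3⟩, b4, b5, hA⟩
  have hJ1 : J₁ ≤ J := (le_max_left _ _).trans ((le_max_left _ _).trans hJ)
  have hJ2 : J₂ ≤ J := (le_max_right _ _).trans ((le_max_left _ _).trans hJ)
  have hJ3 : 1 ≤ J := (le_max_right _ _).trans hJ
  have hJ0 : (0 : ℝ) < J := by exact_mod_cast hJ3
  have hJ2R : (J₂ : ℝ) ≤ J := by exact_mod_cast hJ2
  have hp := Pe_nonneg F.isLaw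
  have hK0 : 0 < K₁ := hK₁
  obtain ⟨z1, z2, z3, z4, z5, z6⟩ := hzz J hJ1
  have hζι : 0 < ζ - ι := by linarith
  have j1 : ((nb : ℝ) + 4) ≤ ζ / (2 * Cn) * J := by
    have h1 := ((le_max_left _ _).trans_lt hJ₂).le.trans hJ2R
    rwa [div_le_iff₀ (by positivity), mul_comm] at h1
  have j2 : 2 ≤ (ζ - ι) * J := by
    have h1 := (((le_max_left _ _).trans (le_max_right _ _)).trans_lt hJ₂).le.trans hJ2R
    rwa [div_le_iff₀ hζι, mul_comm] at h1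
  have j3 : Real.log (32 ^ 2 * (2 * (K₁ * K₂)) + 1) < δ * J := by
    have h1 := (((le_max_right _ _).trans (le_max_right _ _)).trans_lt hJ₂).trans_le hJ2R
    rw [div_lt_iff₀ hδ] at h1
    linarith
  -- the events
  obtain ⟨B₀, g₀, G, H, hB₀, hPB₀, W⟩ := b1 (zz J) z1
  have hPB₀' : 1 / K₁ * Pe F.p A ≤ Pe F.p B₀ := by
    rw [one_div, inv_mul_le_iff₀ hK0]
    exact hPB₀
  obtain ⟨B₁, hB₁, hPB₁, hcfB⟩ := b2 B₀ hB₀ hPB₀' (fun k => g₀ (if k < r₁ then 0 else nb) k)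
    (fun k => {p : MvPolynomial (Option (Fin m)) ℝ // p.totalDegree ≤ D ∧ DepC c k p})
    (fun k y => ⟨G (if k < r₁ then 0 else nb) y k, (W.ev _ (by split_ifs <;> omega)).ball.degG y k,
      (W.ev _ (by split_ifs <;> omega)).ball.depG y k⟩)
    (fun k s => ⟨H (if k < r₁ then 0 else nb) s k, (W.ev _ (by split_ifs <;> omega)).ball.degH s k,
      (W.ev _ (by split_ifs <;> omega)).ball.depH s k⟩) (fun k v => v.1) (fun k hk => by
      by_cases hk' : k < r₁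
      · have h1 := winb_lbp W (k := 0) (l := k) (by omega) (by omega)
        simp only [if_pos hk']
        exact h1
      · have h1 := winb_lbp W (k := nb) (l := k) (by omega) (by omega)
        simp only [if_neg hk']
        exact h1)
  have hBA₁ : Sub B₁ A := fun ω hω => hB₀ ω (hB₁ ω hω)
  have hPB₁' : 1 / (2 * K₁) * Pe F.p A ≤ Pe F.p B₁ := by
    have h1 : 1 / (2 * K₁) * Pe F.p A = (1 / K₁ * Pe F.p A) / 2 := by
      field_simp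
    rw [h1]
    linarith
  have hB₁0 : 0 < Pe F.p B₁ := lt_of_lt_of_le (by positivity) hPB₁'
  have W₁ : WinB F c r D Dr N 2 C₀ a' Eb ηm o η σ lv bb (2 * κ') (zz J) B₁ g₀ G H :=
    W.res (κ₁ := 1 / 2) hB₁ (by linarith) (by linarith) (by linarith)
  obtain ⟨B₂, Wn, mu, hB₂₁, hgood, m1, m2, m3, m4, m5, m6⟩ := b3 B₁ hBA₁ hPB₁' (by linarith) W₁
    (fun l hl => by
      have h1 := hcfB l (by omega)
      simp only [if_pos hl] at h1
      exact h1) (fun l hl1 hl2 => by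
      have h1 := hcfB l (by omega)
      simp only [if_neg (not_lt.2 hl1)] at h1
      exact h1)
  have hPB₂ : 1 / (2 * (K₁ * K₂)) * Pe F.p A ≤ Pe F.p B₂ := by
    have h1 : Pe F.p A ≤ 2 * K₁ * Pe F.p B₁ := by
      rw [one_div, inv_mul_le_iff₀ (by positivity)] at hPB₁'
      exact hPB₁'
    have h2 : 2 * K₁ * Pe F.p B₁ ≤ 2 * K₁ * (K₂ * Pe F.p B₂) :=
      mul_le_mul_of_nonneg_left hgood (by positivity)
    rw [one_div, inv_mul_le_iff₀ (by positivity)]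
    linarith
  obtain ⟨B₃, hB₃, hPB₃, hout⟩ := b4 (zz J) κ' bb B₀ g₀ G H B₂ W hκ'1 hB₀
    (fun ω hω => hB₁ ω (hB₂₁ ω hω)) hPB₂
  have hB₃₁ : Sub B₃ B₁ := fun ω hω => hB₂₁ ω (hB₃ ω hω)
  have hB₃₀ : Sub B₃ B₀ := fun ω hω => hB₁ ω (hB₃₁ ω hω)
  rw [hζrC] at hout
  have hsmall : ∀ ω, B₃ ω → ∀ j < r, |gnh F c r (g₀ nb) (hyb G 0 nb r₁) (G (nb + n)) ω j -
      (mu (slam F Wn ω) j).eval (rt F Wn ω)| ≤ 2 ^ (-(s₁ * J)) :=
    fun ω hω j hj => m6 ω (hB₃ ω hω) j hj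
  -- the numbers
  have hpw : (2 : ℝ) ^ (-(s₁ * J)) ≤ 2 ^ ⌊ζ * J⌋₊ / 2 ^ ⌊s₁ * J⌋₊ := by
    have h1 : (2 : ℝ) ^ (-(s₁ * J)) ≤ 1 / 2 ^ ⌊s₁ * J⌋₊ := by
      rw [Real.rpow_neg two_pos.le, ← one_div]
      refine one_div_le_one_div_of_le (by positivity) ?_
      rw [← Real.rpow_natCast]
      exact Real.rpow_le_rpow_of_exponent_le one_le_two (Nat.floor_le (by positivity))
    refine h1.trans (div_le_div_of_nonneg_right (one_le_pow₀ one_le_two) (by positivity))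
  have hmu : ∀ ω, B₃ ω → ∀ j < r, |(mu (slam F Wn ω) j).eval (rt F Wn ω)| ≤ 2 ^ ⌊ζ * J⌋₊ := by
    intro ω hω j hj
    have h1 := hsmall ω hω j hj
    have h2 := m4 ω (hB₃ ω hω) j hj
    have h3 : (2 : ℝ) ^ (-(s₁ * J)) ≤ 1 := by
      rw [Real.rpow_neg two_pos.le]
      exact inv_le_one_of_one_le₀ (Real.one_le_rpow one_le_two (by positivity))
    have h4 : |(mu (slam F Wn ω) j).eval (rt F Wn ω)| ≤ 2 ^ (ι * J) + 1 := by
      have h5 : (mu (slam F Wn ω) j).eval (rt F Wn ω) =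
        gnh F c r (g₀ nb) (hyb G 0 nb r₁) (G (nb + n)) ω j -
        (gnh F c r (g₀ nb) (hyb G 0 nb r₁) (G (nb + n)) ω j -
          (mu (slam F Wn ω) j).eval (rt F Wn ω)) := by ring
      rw [h5]
      exact (abs_sub _ _).trans (by linarith)
    have h5 : (1 : ℝ) ≤ 2 ^ (ι * J) := Real.one_le_rpow one_le_two (by positivity)
    have h6 : (2 : ℝ) ^ (ι * J) * 2 ≤ 2 ^ ⌊ζ * J⌋₊ := by
      have h7 : (2 : ℝ) ^ (ι * J) * 2 = 2 ^ (ι * J + 1) := by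
        rw [Real.rpow_add two_pos, Real.rpow_one]
      rw [h7, ← Real.rpow_natCast]
      refine Real.rpow_le_rpow_of_exponent_le one_le_two ?_
      have h8 := (Nat.lt_floor_add_one (ζ * (J : ℝ))).le
      nlinarith
    linarith
  -- the windows
  have hfl1 : ⌊o 0 * J⌋₊ ≤ ⌊o nb * J⌋₊ := by
    refine Nat.floor_le_floor (mul_le_mul_of_nonneg_right ?_ hJ0.le)
    have h1 : ∀ k ≤ nb, o 0 ≤ o k := by
      intro k
      induction k with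
      | zero => intro _; exact le_rfl
      | succ k ih => intro hk; exact (ih (by omega)).trans (hmo k (by omega))
    exact h1 nb le_rfl
  have hWw : Wn ≤ ⌊(w : ℝ) * J⌋₊ := by
    refine Nat.le_floor (m2.trans (mul_le_mul_of_nonneg_right hφw hJ0.le))
  have hWJ : Wn ≤ J := by
    have h1 : (Wn : ℝ) ≤ J := by
      have h2 : (Wn : ℝ) ≤ w * J := m2.trans (mul_le_mul_of_nonneg_right hφw hJ0.le)
      have h3 : (w : ℝ) * J ≤ 1 * J := mul_le_mul_of_nonneg_right (by exact_mod_cast w6.le)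
        hJ0.le
      linarith
    exact_mod_cast h1
  have hWq : Wn ≤ ⌊o nb * J⌋₊ + zz J nb 1 := by
    have h1 := (Nat.lt_floor_add_one (o nb * (J : ℝ))).le
    have h2 : (Wn : ℝ) ≤ ((⌊o nb * J⌋₊ + zz J nb 1 : ℕ) : ℝ) := by
      push_cast
      nlinarith
    exact_mod_cast h2
  -- the hybrid charts are near
  obtain ⟨Y, hY⟩ : ∃ Y : ℕ, Y = ⌊ζ / Cn * J⌋₊ := ⟨_, rfl⟩
  have e2 : ζ / Cn * J = 2 * (ζ / (2 * Cn) * J) := by
    field_simp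
  have hn0 : (0 : ℝ) ≤ nb := Nat.cast_nonneg nb
  have hYR : ζ / (2 * Cn) * J ≤ Y := by
    have h4 := (Nat.lt_floor_add_one (ζ / Cn * (J : ℝ))).le
    rw [← hY, e2] at h4
    linarith
  have hYle : Cn * (Y : ℝ) ≤ ζ * J := by
    have h4 : (Y : ℝ) ≤ ζ / Cn * J := by
      rw [hY]
      exact Nat.floor_le (by positivity)
    calc Cn * (Y : ℝ) ≤ Cn * (ζ / Cn * J) := mul_le_mul_of_nonneg_left h4 (by linarith)
      _ = ζ * J := by field_simp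
  have hlin : ∀ x : ℝ, 2 * Cn * x ≤ ζ → x * J ≤ Y := fun x hx => by
    refine le_trans (mul_le_mul_of_nonneg_right ?_ hJ0.le) hYR
    rw [le_div_iff₀ (by positivity)]
    linarith
  obtain ⟨κQ, -, hκQ⟩ := hnear W (fb := fun k => k) (jb := fun _ => 0) (nb := nb) (Y := Y) hc hr₁
    (fun k hk => by omega) (fun k hk => ⟨by omega, z2 k (by omega), hmo k hk⟩) (by
      have := hlin (C₀ * ηm) (hCη' _ (by linarith) (by linarith))
      rw [mul_assoc] at this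
      exact this) (by
      have h4 : (3 : ℝ) ≤ Y := by linarith
      exact_mod_cast h4) (by
      have h4 : (nb : ℝ) ≤ Y := by linarith
      exact h4.trans (by exact_mod_cast Nat.lt_two_pow_self.le))
    (fun k hk l hl => by
      have h4 := hsl k hk l hl
      have h5 : 2 * Cn * |lv k l - o k - (lv nb l - o nb)| ≤ ζ :=
        (mul_le_mul_of_nonneg_right (by linarith) (abs_nonneg _)).trans h4
      have h6 := hlin _ h5
      have h7 := mul_le_mul_of_nonneg_right (le_abs_self (lv k l - o k - (lv nb l - o nb))) hJ0.le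
      have h8 := mul_le_mul_of_nonneg_right (neg_le_abs (lv k l - o k - (lv nb l - o nb))) hJ0.le
      constructor
      · linarith
      · have h9 : lv nb l - o nb - (lv k l - o k) = -(lv k l - o k - (lv nb l - o nb)) := by ring
        rw [h9]
        linarith)
  have hYf : Cn * Y ≤ ⌊ζ * J⌋₊ := Nat.le_floor (by push_cast; exact hYle)
  -- the contradiction
  have hfin := b5 (zz J) κ' bb B₀ g₀ G H 1 2 Wn W hB₀ (by norm_num) le_rfl z3 z5 z6 m1 hWw hWq B₃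
    (hyb G 0 nb r₁) (hybH H 0 nb r₁ ⌊o 0 * J⌋₊ ⌊o nb * J⌋₊ Wn)
    (fun ω l => if l < r₁ then κQ ω l else 0) mu hB₃₀
    (hout nb (by simp)) (hout (nb + n) (by simp))
    (fun y l => hyb_deg W (by omega) (by omega) y l)
    (fun y l => hyb_dep W (by omega) (by omega) y l)
    (fun s l => hybH_deg W (by omega) (by omega) s l)
    (fun s l => hybH_dep W (by omega) (by omega) s l)
    (fun ω hω l hl => hyb_clsG W (by omega) (by omega) (hfl1.trans m1) m1 hWJ (hB₃₀ ω hω) hl)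
    (fun ω hω l hl b hb => by
      by_cases h1 : l < r₁
      · simp only [if_pos h1]
        exact (hκQ ω (hB₃₀ ω hω) l h1.le b hb).trans (div_le_div_of_nonneg_right
          (pow_le_pow_right₀ (by norm_num) hYf) (by positivity))
      · simp only [if_neg h1]
        rw [hyb_hi _ (not_lt.1 h1), add_zero, sub_self, abs_zero]
        positivity) m3
    (fun ω hω j hj => (hsmall ω hω j hj).trans hpw) hmu
    (fun ω ν hω hν hpt j hj => (m5 ω ν (hB₃ ω hω) (hB₃ ν hν) hpt j hj).trans hpw)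
  have hPA : Pe F.p A ≤ 32 ^ 2 * (2 * (K₁ * K₂)) * Pe F.p B₃ := by
    have h1 : Pe F.p A ≤ 2 * (K₁ * K₂) * Pe F.p B₂ := by
      rw [one_div, inv_mul_le_iff₀ (by positivity)] at hPB₂
      exact hPB₂
    have h2 : Pe F.p B₂ ≤ 32 ^ 2 * Pe F.p B₃ := by simpa using hPB₃
    calc Pe F.p A ≤ 2 * (K₁ * K₂) * Pe F.p B₂ := h1
      _ ≤ 2 * (K₁ * K₂) * (32 ^ 2 * Pe F.p B₃) := mul_le_mul_of_nonneg_left h2 (by positivity)
      _ = _ := by ring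
  have hex : (32 ^ 2 * (2 * (K₁ * K₂)) + 1) * Real.exp (-(δ * J)) < 1 := by
    rw [Real.exp_neg, ← div_eq_mul_inv, div_lt_one (Real.exp_pos _)]
    rw [← Real.log_lt_iff_lt_exp (by positivity)]
    exact j3
  have h1 : Pe F.p A ≤ 32 ^ 2 * (2 * (K₁ * K₂)) * (Real.exp (-(δ * J)) * Pe F.p A) :=
    hPA.trans (mul_le_mul_of_nonneg_left hfin (by positivity))
  have h2 : (32 ^ 2 * (2 * (K₁ * K₂))) * Real.exp (-(δ * J)) < 1 := by
    have := Real.exp_pos (-(δ * (J : ℝ)))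
    linarith
  have h3 : 32 ^ 2 * (2 * (K₁ * K₂)) * (Real.exp (-(δ * J)) * Pe F.p A) =
      (32 ^ 2 * (2 * (K₁ * K₂))) * Real.exp (-(δ * J)) * Pe F.p A := by ring
  rw [h3] at h1
  have h4 : (32 ^ 2 * (2 * (K₁ * K₂))) * Real.exp (-(δ * J)) * Pe F.p A < 1 * Pe F.p A :=
    mul_lt_mul_of_pos_right h2 hA
  linarith

end Pool.ST76
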