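import Pool.Agent.H76.ST.Cle
import Pool.Agent.H92.V0F.Vsi
import Pool.Agent.H80.DIC.Mono
import Pool.Agent.H80.DIC.Tree

/-!
# The record form of the void theorem at a thin place

`ClsR`: what the class side has to prove at a record: the gradient of the place `r` over the charts of
the windows `t - cb q` (places below `r₁`) and `t` is closed on a part of each large event.
`void_of_cls`: then there is no record with a thin place `r`.
-/

set_option autoImplicit false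

namespace Pool.ST76

open Finset Real MvPolynomial
open Pool.Agent.H49.Ent Pool.Agent.H32.Dense Pool.STK Pool.KA Pool.KSAT Pool.K2S Pool.PB Pool.GEN
open Pool.S6C Pool.RCD Pool.LA91 Pool.OWN68 Pool.PKG Pool.V0F
open Pool.D2R (BalD WinB gnh hyb hybH winb_con)
open Pool.CHT (chsys TmH bet)
open Pool.ISO (lvN)
open Pool.AJW (CfB)

/-- **The class side at a record**: `r` is the target, the places below `r₁` are on the charts of the
window `t - cb q`, the places from `r₁` up to `r` on those of `t`. `Kd`: the degree of the closed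
gradients, `κ₂ q`: their precision. -/
def ClsR (n r₁ r : ℕ) (h : ℝ) (Sl : ℕ → ℝ) (κ : ℕ → Kg) {ι Λ : Type} (Q : PropG n ι)
    (Z : Λ → PropW n) : Prop :=
  ∀ al : ℝ, 0 < al → ∀ K₀ : ℝ, 0 < K₀ → ∀ S₀ : ℕ, 1 ≤ S₀ → ∃ D₁ : ℕ, ∀ D : ℕ, D₁ ≤ D → 1 ≤ D →
  ∃ (Dr Kd : ℕ) (κ₂ : ℝ), D ≤ Dr ∧ 0 < κ₂ ∧ κ₂ ≤ 1 ∧
  ∃ (Kr : ℝ) (Nr : ℕ) (Ar Vr : ℕ → ℝ), 1 ≤ Kr ∧ (∀ k < Nr, -Kr ≤ Vr k ∧ Vr k ≤ Ar k ∧ Ar k ≤ Kr) ∧
  ∀ S₂ : ℕ, S₀ ≤ S₂ → ∀ ζ : ℝ, 0 < ζ → ζ ≤ 1 →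
  ∃ (lam : Λ) (cb : ℕ) (φ₀ : ℝ), 0 < φ₀ ∧ ∀ φ : ℝ, 0 < φ → φ ≤ φ₀ →
  ∃ M₁ : ℕ, ∀ M₀ : ℕ, M₁ ≤ M₀ → 1 ≤ M₀ →
  ∃ (K₁ : ℝ) (Nv : ℕ) (Vv : ℕ → ℝ), (∀ j < Nv, -K₁ ≤ Vv j ∧ Vv j ≤ K₁) ∧ ∀ K' : ℝ, K₁ ≤ K' →
  ∃ ε₀ : ℝ, 0 < ε₀ ∧ ∀ ε : ℝ, 0 < ε → ε ≤ ε₀ →
  ∀ (S : PCl n) (g₀ : ℝ → ℝ) (P : List (Fin n) × Fin n → ℝ → ℝ → ℝ)
    (θ : ℝ) (P₂ : ℕ → List (Fin n) × Fin n → ℝ → ℝ → ℝ) (θ₂ Eb e₂ : ℕ → ℝ) (c : ℕ → Fin n)
    (Pt : ℝ → ℝ → ℝ) (rt : ℝ → ℝ) (L T : ℕ → ℝ → ℝ → ℝ) (G : Set ℝ) (g : ℝ),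
    IsClosed G → g ∈ G → (∀ l < n, HasDerivAt (fun x => L l x x) (Sl l) g) →
    Z lam S P θ c Pt rt L T κ G g →
    ∃ (p : ℕ → ι) (M : ℕ) (B₀ B₁ : ℕ → ℝ),
    (∀ j < M, B₀ j < B₁ j) ∧ ∀ k₀ : ℕ → ℕ, (∀ j < M, Q (p j) (k₀ j) S P θ c Pt rt L T κ G g) →
    ∃ q₁ : ℝ, 0 < q₁ ∧ ∀ (q t : ℝ) (x : ℕ → ℝ),
      q < q₁ → (∀ j < M, x j ∈ G ∧ t + B₀ j * q ≤ x j ∧ x j ≤ t + B₁ j * q ∧
        Q (p j) (k₀ j) S P θ c Pt rt L T κ G (x j)) →
      ∀ (N : ℕ) (A V : ℕ → ℝ) (N' : ℕ) (V' : ℕ → ℝ),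
      RecG S al g₀ P θ P₂ θ₂ Eb e₂ c Pt rt h K₀ g L T Sl κ G S₀ N A V S₂ N' V' K' ε q t →
      (∀ k < Nr, ∃ j < N, A j = Ar k ∧ V j = Vr k) → (∀ k < Nv, ∃ j < N', V' j = Vv k) →
      (∀ k < (cb + 1) * M₀ + 1, ∃ j < N', V' j = chV M₀ cb k) →
      ∃ S' : PCl n, S'.Ne ∧
        (∀ (τ : ℝ) (J : ℕ) (F : Fam n J) (A : F.Ω → Prop), S'.St τ J F A → S.St τ J F A) ∧
      ∀ (ow : ℕ → ℝ) (C₀ ηm : ℝ) (bb : ℕ → ℕ → ℝ) (zz : ℕ → ℕ → ℕ → ℕ),
        (∀ k, ow k = t + chV M₀ cb k * q) → 1 ≤ C₀ → 0 < ηm → C₀ * ηm ≤ φ * q →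
        (∃ J₁ : ℕ, ∀ J ≥ J₁, ∀ k, zz J k 0 = ⌊ow (k + 1) * J⌋₊ - ⌊ow k * J⌋₊ ∧
          (zz J k 1 : ℝ) ≤ ζ / 2 * q * J ∧ zz J k 1 + 1 ≤ zz J k 2) →
        ∃ K₂ κc : ℝ, 0 < K₂ ∧ 0 < κc ∧
        Bas S' (fun J F A => ∀ {κ₁ : ℝ} {g₁ : ℕ → ℕ → ℕ}
          {Gc : ℕ → PtT F → ℕ → MvPolynomial (Option (Fin n)) ℝ}
          {H : ℕ → LnT F → ℕ → MvPolynomial (Option (Fin n)) ℝ}, κ₁ ≤ κc →
          WinB F c r D Dr (cb * M₀ + M₀) 2 C₀ (t + 3 * q) (Eb r) ηm ow (fun _ => ηm)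
            (fun _ => ηm) (fun k l => lvN P c r (L r) l (ow k) (ow k)) bb κ₁ (zz J) A g₁ Gc H →
          (∀ l < r₁, CfB F ⌊ow 0 * J⌋₊ 1 (c l) A (fun s => s) (fun s => H 0 s l)) →
          (∀ l, r₁ ≤ l → l ≤ r → CfB F ⌊ow (cb * M₀) * J⌋₊ 1 (c l) A (fun s => s)
            (fun s => H (cb * M₀) s l)) →
          V0OutP F c r Kd (ow (cb * M₀)) (φ * q) (ζ / 2 * q) (κ₂ * q) K₂ A (g₁ (cb * M₀))
            (hyb Gc 0 (cb * M₀) r₁) (Gc (cb * M₀ + M₀)))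

/-- Two lists of windows in one. -/
theorem list_two {N₁ N₂ : ℕ} (V₁ V₂ : ℕ → ℝ) :
    (∀ k < N₁, ∃ j < N₁ + N₂, (if j < N₁ then V₁ j else V₂ (j - N₁)) = V₁ k) ∧
    (∀ k < N₂, ∃ j < N₁ + N₂, (if j < N₁ then V₁ j else V₂ (j - N₁)) = V₂ k) := by
  refine ⟨fun k hk => ⟨k, by omega, by rw [if_pos hk]⟩, fun k hk => ⟨N₁ + k, by omega, ?_⟩⟩
  rw [if_neg (by omega), Nat.add_sub_cancel_left]

/-- **No record with a thin place**, from the class side. -/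
theorem void_of_cls {n r₁ r : ℕ} (hr : 1 ≤ r) (hrn : r < n) (hr₁ : r₁ ≤ r) {h : ℝ}
    {Sl : ℕ → ℝ} {κ : ℕ → Kg} (hSl : ∀ l < r₁, Sl l = 1) (hκ : κ r = .thin) (hs : 1 < Sl r)
    {ι Λ : Type} {Q : PropG n ι} {Z : Λ → PropW n} (H : ClsR n r₁ r h Sl κ Q Z) :
    VoidZ n h Sl κ Q Z := by
  intro al hal K₀ hK₀ S₀ hS₀
  obtain ⟨D₁, H⟩ := H al hal K₀ hK₀ S₀ hS₀
  obtain ⟨D₂, hD₂, hwin⟩ := winb_con n r S₀ hr hS₀
  obtain ⟨D, hDe⟩ : ∃ D, D = max D₁ D₂ := ⟨_, rfl⟩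
  have hD1 : D₁ ≤ D := by rw [hDe]; exact le_max_left _ _
  have hD2 : D₂ ≤ D := by rw [hDe]; exact le_max_right _ _
  have hD : 1 ≤ D := hD₂.trans hD2
  obtain ⟨Dr, Kd, κ₂, hDr, hκ₂, hκ₂1, Kr, Nr, Ar, Vr, hKr, hAV, H⟩ := H D hD1 hD
  obtain ⟨CB, hCB, hwin⟩ := hwin D hD2 Dr hDr
  obtain ⟨C, hC, hend⟩ := v0_clsEndP n D Kd r₁ r hr₁ hD
  have hC1 : (1 : ℝ) ≤ C := by exact_mod_cast hC
  have hC0 : (0 : ℝ) < C := by linarith
  have hs0 : 0 < Sl r := by linarith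
  -- the constants
  obtain ⟨β, hβe⟩ : ∃ β : ℝ, β = min κ₂ (Sl r - 1) / 32 := ⟨_, rfl⟩
  have hβ : 0 < β := by
    rw [hβe]
    have : 0 < min κ₂ (Sl r - 1) := lt_min hκ₂ (by linarith)
    positivity
  have hβκ : 32 * β ≤ κ₂ := by
    rw [hβe]
    have := min_le_left κ₂ (Sl r - 1)
    linarith
  have hβs : 32 * β ≤ Sl r - 1 := by
    rw [hβe]
    have := min_le_right κ₂ (Sl r - 1)
    linarith
  obtain ⟨ζ, hζe⟩ : ∃ ζ : ℝ, ζ = β / (C * (Sl r + 1)) := ⟨_, rfl⟩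
  have hζ0 : 0 < ζ := by rw [hζe]; positivity
  have hζ : C * ζ * (Sl r + 1) = β := by
    rw [hζe]
    field_simp
  have hζ1 : ζ ≤ 1 / 32 := by
    have h1 : C * ζ * (Sl r + 1) ≤ 1 / 32 := by linarith
    have h2 : ζ ≤ C * ζ := le_mul_of_one_le_left hζ0.le hC1
    have h3 : C * ζ ≤ C * ζ * (Sl r + 1) :=
      le_mul_of_one_le_right (by positivity) (by linarith)
    linarith
  refine ⟨max Kr 1, Nr + 1, fun k => if k < Nr then Ar k else 1,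
    fun k => if k < Nr then Vr k else ζ / 2, le_max_right _ _, fun k _ => ?_, fun S₂ hS₂ => ?_⟩
  · have a1 := le_max_left Kr 1
    have a2 := le_max_right Kr 1
    by_cases hk : k < Nr
    · simp only [if_pos hk]
      obtain ⟨b1, b2, b3⟩ := hAV k hk
      exact ⟨by linarith, b2, by linarith⟩
    · simp only [if_neg hk]
      exact ⟨by linarith, by linarith, a2⟩
  obtain ⟨lam, cb, φ₀, hφ₀, H⟩ := H S₂ hS₂ ζ hζ0 (by linarith)
  obtain ⟨φ', hφe⟩ : ∃ φ' : ℝ, φ' = min φ₀ (min (ζ / 16) (1 / 400)) := ⟨_, rfl⟩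
  have hφ0 : 0 < φ' := by
    rw [hφe]
    exact lt_min hφ₀ (lt_min (by positivity) (by norm_num))
  have hφ1 : φ' ≤ φ₀ := by rw [hφe]; exact min_le_left _ _
  have hφ2 : φ' ≤ ζ / 16 := by
    rw [hφe]
    exact (min_le_right _ _).trans (min_le_left _ _)
  have hφ3 : φ' ≤ 1 / 400 := by
    rw [hφe]
    exact (min_le_right _ _).trans (min_le_right _ _)
  obtain ⟨M₁, H⟩ := H φ' hφ0 hφ1
  obtain ⟨M₂, hM₂⟩ := exists_nat_ge (2 * (Sl r + 1) / φ')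
  obtain ⟨M₀, hM₀⟩ : ∃ M₀ : ℕ, M₀ = max M₁ (max M₂ 1) := ⟨_, rfl⟩
  have hM01 : M₁ ≤ M₀ := by rw [hM₀]; exact le_max_left _ _
  have hM02 : M₂ ≤ M₀ := by
    rw [hM₀]
    exact (le_max_left _ _).trans (le_max_right _ _)
  have hM1 : 1 ≤ M₀ := by
    rw [hM₀]
    exact (le_max_right _ _).trans (le_max_right _ _)
  obtain ⟨K₁, Nv, Vv, hVv, H⟩ := H M₀ hM01 hM1
  have hM0 : (0 : ℝ) < M₀ := by exact_mod_cast hM1
  have hMφ : 2 * (Sl r + 1) / M₀ ≤ φ' := by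
    have h1 : (M₂ : ℝ) ≤ M₀ := by exact_mod_cast hM02
    have h2 := hM₂.trans h1
    rw [div_le_iff₀ hM0]
    rw [div_le_iff₀ hφ0] at h2
    linarith
  have hcb0 : (0 : ℝ) ≤ cb := Nat.cast_nonneg _
  obtain ⟨K', hK'⟩ : ∃ K' : ℝ, K' = max K₁ (max (max Kr 1) (cb + Sl r + 12)) := ⟨_, rfl⟩
  have hK'1 : K₁ ≤ K' := by rw [hK']; exact le_max_left _ _
  have hK'2 : max Kr 1 ≤ K' := by
    rw [hK']
    exact (le_max_left _ _).trans (le_max_right _ _)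
  have hK'3 : cb + Sl r + 12 ≤ K' := by
    rw [hK']
    exact (le_max_right _ _).trans (le_max_right _ _)
  obtain ⟨Nc, hNc⟩ : ∃ Nc : ℕ, Nc = (cb + 1) * M₀ + 1 := ⟨_, rfl⟩
  obtain ⟨ε₀, hε₀, H⟩ := H K' hK'1
  obtain ⟨ε, hεe⟩ : ∃ ε : ℝ, ε = min ε₀ (min (φ' / 4) (min (ζ / (2 * C)) (β / 16))) := ⟨_, rfl⟩
  have hε0 : 0 < ε := by
    rw [hεe]
    exact lt_min hε₀ (lt_min (by positivity) (lt_min (by positivity) (by positivity)))
  have hεε : ε ≤ ε₀ := by rw [hεe]; exact min_le_left _ _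
  have hε1 : ε ≤ φ' / 4 := by
    rw [hεe]
    exact (min_le_right _ _).trans (min_le_left _ _)
  have hε2 : ε ≤ ζ / (2 * C) := by
    rw [hεe]
    exact (min_le_right _ _).trans ((min_le_right _ _).trans (min_le_left _ _))
  have hε3 : ε ≤ β / 16 := by
    rw [hεe]
    exact (min_le_right _ _).trans ((min_le_right _ _).trans (min_le_right _ _))
  have hchv : ∀ k < Nc, |chV M₀ cb k| ≤ cb + 1 := fun k hk => by
    have := chV_abs (M₀ := M₀) (cb := cb) (co := 1) (k := k) hM1 (by omega)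
    push_cast at this
    exact this
  refine ⟨lam, K', Nc + Nv, fun j => if j < Nc then chV M₀ cb j else Vv (j - Nc), hK'2,
    fun k hk => ?_, ε, hε0, ?_⟩
  · by_cases hk' : k < Nc
    · simp only [if_pos hk']
      have h1 := abs_le.1 (hchv k hk')
      constructor <;> linarith [h1.1, h1.2]
    · simp only [if_neg hk']
      have h1 := hVv (k - Nc) (by omega)
      constructor <;> linarith [h1.1, h1.2]
  intro S g₀ P θ P₂ θ₂ Eb e₂ c Pt rt L T G g hG hgG hder hZ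
  obtain ⟨p, M, B₀, B₁, hB, H⟩ := H ε hε0 hεε S g₀ P θ P₂ θ₂ Eb e₂ c Pt rt L T G g hG hgG hder hZ
  refine ⟨p, M, B₀, B₁, hB, fun k₀ hk₀ => ?_⟩
  obtain ⟨q₁, hq₁, H⟩ := H k₀ hk₀
  refine ⟨q₁, hq₁, ?_⟩
  intro q t x hq hx R
  have hq0 := R.q0
  obtain ⟨hl1, hl2⟩ := list_two (N₁ := Nc) (N₂ := Nv) (fun j => chV M₀ cb j) Vv
  obtain ⟨S', hne', hsub, HS⟩ := H q t x hq hx _ _ _ _ _ R (fun k hk => ⟨k, by omega, by
    simp only [if_pos hk, and_self]⟩) hl2 (fun k hk => hl1 k (by omega))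
  have R' := R.sub hne' hsub
  clear H hx R
  have hK0 : 0 < K' := by linarith
  have ht0 := R'.t0
  have ht1 := R'.t1
  have hKq : cb * q + Sl r * q + 12 * q ≤ K' * q := by
    have := mul_le_mul_of_nonneg_right hK'3 hq0.le
    linarith
  have hcbq : 0 ≤ cb * q := by positivity
  have hsq : 0 < Sl r * q := by positivity
  have hVK : ∀ k < Nc, |chV M₀ cb k| ≤ K' := fun k hk => (hchv k hk).trans (by linarith)
  have W := R'.tg r hr hrn
  have hEb := W.Eb0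
  -- the errors
  have e1 : ε * q ≤ φ' / 4 * q := mul_le_mul_of_nonneg_right hε1 hq0.le
  have e2 : φ' * q ≤ φ₀ * q := mul_le_mul_of_nonneg_right hφ1 hq0.le
  have e3 : φ' * q ≤ ζ / 16 * q := mul_le_mul_of_nonneg_right hφ2 hq0.le
  have e4 : φ' * q ≤ 1 / 400 * q := mul_le_mul_of_nonneg_right hφ3 hq0.le
  have e5 : 0 < φ' * q := by positivity
  have e6 : 0 < ε * q := by positivity
  have e7 : q / M₀ + Sl r * (q / M₀) ≤ φ' / 2 * q := by
    have h1 := mul_le_mul_of_nonneg_right hMφ hq0.le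
    have h2 : 2 * (Sl r + 1) / M₀ * q = 2 * (q / M₀ + Sl r * (q / M₀)) := by
      field_simp
      ring
    linarith
  have e8 : 0 < q / M₀ := by positivity
  have e9 : 0 < Sl r * (q / M₀) := by positivity
  have hqM : q / M₀ ≤ φ' * q := by linarith
  obtain ⟨nb, hnb⟩ : ∃ nb : ℕ, nb = cb * M₀ := ⟨_, rfl⟩
  obtain ⟨ow, how⟩ : ∃ ow : ℕ → ℝ, ow = fun k => t + chV M₀ cb k * q := ⟨_, rfl⟩
  have hok : ∀ k, ow k = t + chV M₀ cb k * q := fun k => by rw [how]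
  have how0 : ow 0 = t - cb * q := by rw [hok, chV_zero]; ring
  have hownb : ow nb = t := by rw [hok, hnb, chV_mid hM1]; ring
  have hownn : ow (nb + M₀) = t + q := by
    rw [hok, hnb, chV_nb hM1, div_self hM0.ne']
    ring
  have hNN : nb + M₀ < Nc := by
    rw [hNc, hnb, add_mul]
    omega
  have howlv : ∀ k, ∀ l ≤ r, lvN P c r (L r) l (ow k) (ow k) = L l (ow k) (ow k) := by
    intro k l hl
    rw [← R'.lv_at hrn hl]
  have hlowx : ∀ y : ℝ, t - cb * q ≤ y → y ≤ t + q → ∀ l ≤ r, y ≤ L l y y :=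
    fun y h1 h2 l hl => R'.low_at (by omega) (by linarith) le_rfl (by linarith)
  have hroomx : ∀ y : ℝ, t - cb * q ≤ y → y ≤ t + q → ∀ l ≤ r,
      L l y y + Eb r + 3 * K' * q < 1 := fun y h1 h2 l hl => W.room l hl y (by
    rw [abs_le]
    constructor <;> linarith)
  -- the windows
  obtain ⟨ηm, hηm⟩ : ∃ ηm : ℝ, ηm = min (ζ / (C * CB)) (φ' / CB) * q := ⟨_, rfl⟩
  have hCB0 : 0 < CB := by linarith
  have hηm0 : 0 < ηm := by
    rw [hηm]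
    exact mul_pos (lt_min (by positivity) (by positivity)) hq0
  have hηm1 : C * (CB * ηm) ≤ ζ * q := by
    have h1 : ηm ≤ ζ / (C * CB) * q := by
      rw [hηm]
      exact mul_le_mul_of_nonneg_right (min_le_left _ _) hq0.le
    calc C * (CB * ηm) ≤ C * (CB * (ζ / (C * CB) * q)) :=
          mul_le_mul_of_nonneg_left (mul_le_mul_of_nonneg_left h1 hCB0.le) hC0.le
      _ = ζ * q := by field_simp
  have hηm2 : CB * ηm ≤ φ' * q := by
    have h1 : ηm ≤ φ' / CB * q := by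
      rw [hηm]
      exact mul_le_mul_of_nonneg_right (min_le_right _ _) hq0.le
    calc CB * ηm ≤ CB * (φ' / CB * q) := mul_le_mul_of_nonneg_left h1 hCB0.le
      _ = φ' * q := by field_simp
  have hr₀ : 0 < min (q / (2 * M₀)) (ζ / 2 * q / 2) := lt_min (by positivity) (by positivity)
  obtain ⟨K₃, bb, hK₃, hwin⟩ := hwin (S := S') (P := P) (θ := θ) (c := c) (Pt := L r)
    (a := t + 3 * q) (Eb := Eb r) (ηm := ηm) (o := ow) (η := fun _ => ηm) (σ := fun _ => ηm)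
    (r₀ := fun _ => min (q / (2 * M₀)) (ζ / 2 * q / 2)) (nb + M₀) 2 R'.thr R'.th0 R'.tmh
    (R'.inj.mono fun x hx => by
      rw [Set.mem_Iio] at hx ⊢
      omega)
    (R'.lawL r hrn) hEb.le (fun k' hk' => by
      rw [hok]
      have h1 := abs_le.1 (hchv k' (by omega))
      have h2 : chV M₀ cb k' ≤ 1 := by
        have h3 := chV_mono (M₀ := M₀) (cb := cb) hk'
        rwa [hnb, chV_nb hM1, div_self hM0.ne'] at h3
      have h4 : chV M₀ cb k' * q < 3 * q := mul_lt_mul_of_pos_right (by linarith) hq0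
      have h5 := W.ptc k' (by omega)
      simp only [if_pos (show k' < Nc by omega)] at h5
      obtain ⟨ρ, vs, e, e₀, E, sg, Q', c1, c2, -⟩ := h5
      refine ⟨by linarith, ⟨ρ, vs, e, e₀, E, sg, Q', c1, c2⟩, fun l hl => ?_⟩
      have h6 := W.room l hl (t + chV M₀ cb k' * q) (by
        rw [add_sub_cancel_left, abs_mul, abs_of_pos hq0]
        exact mul_le_mul_of_nonneg_right (hVK k' (by omega)) hq0.le)
      rw [← R'.lv_at hrn hl]
      have h7 : (3 - chV M₀ cb k') * q ≤ 3 * K' * q :=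
        mul_le_mul_of_nonneg_right (by linarith [h1.1]) hq0.le
      linarith)
    (fun k' _ => ⟨hηm0, hηm0, le_rfl, hr₀, le_rfl⟩)
  -- the last windows
  obtain ⟨d, hd, hrat⟩ := W.rat Nr (by omega) (β / 8 * q) (by positivity)
  simp only [if_neg (lt_irrefl Nr), one_mul] at hrat
  obtain ⟨a, ha1, ha2⟩ : ∃ a : ℚ, t + q < a ∧ (a : ℝ) < t + q + min d (β * q) :=
    exists_rat_btwn (by
      have : 0 < min d (β * q) := lt_min hd (by positivity)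
      linarith)
  obtain ⟨w, hw1, hw2⟩ : ∃ w : ℚ, t + ζ / 2 * q < w ∧
      (w : ℝ) < t + ζ / 2 * q + min d (ζ * q / 4) := exists_rat_btwn (by
      have : 0 < min d (ζ * q / 4) := lt_min hd (by positivity)
      linarith)
  have ha3 := min_le_left d (β * q)
  have ha4 := min_le_right d (β * q)
  have hw3 := min_le_left d (ζ * q / 4)
  have hw4 := min_le_right d (ζ * q / 4)
  have hζq : ζ * q ≤ 1 / 32 * q := mul_le_mul_of_nonneg_right hζ1 hq0.le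
  have hζq0 : 0 < ζ * q := by positivity
  have hβq0 : 0 < β * q := by positivity
  have hζ2 : ζ / 2 * q = ζ * q / 2 := by ring
  have hwa : (w : ℝ) ≤ a := by linarith
  obtain ⟨hbr, -, -⟩ := hrat a w ha1.le (by linarith) hw1.le (by linarith) hwa
  have hkd := R'.kd r hrn
  rw [hκ] at hkd
  obtain ⟨-, hthin⟩ := hkd
  have hth := hthin (t + q) (t + ζ / 2 * q) (by linarith) (by linarith) (by linarith)
  have hdT := abs_le.1 (R'.dT r hrn (t + ζ / 2 * q) (by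
    rw [add_sub_cancel_left, abs_of_pos (by positivity)]
    linarith))
  have hdL1 := abs_le.1 (R'.dL r hrn (t + q) (by
    rw [add_sub_cancel_left, abs_of_pos hq0]
    linarith))
  have hrt := hroomx t (by linarith) (by linarith)
  have hEbe := W.Ebe
  have hnum := v0_nmR (C := C) (q := q) (t := t) (β := β) (ζ := ζ) (s := Sl r) (κ₂ := κ₂)
    (ε := ε) (L0 := L r t t) (LN := L r (t + q) (t + q)) (bt := bet (P₂ r) c r a w) (Eb := Eb r)
    (e := e₂ r) (a := a) (w := w) hq0 hC1 hβ hβκ hβs hκ₂1 hζ0 hζ hε0.le (by linarith) (by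
      have h1 : (Sl r - 1) * (ζ / 2 * q) = Sl r * (t + ζ / 2 * q - t) - ζ / 2 * q := by ring
      rw [h1]
      linarith [hdT.2]) (by
      have h1 : Sl r * (t + q - t) = Sl r * q := by ring
      rw [h1] at hdL1
      linarith [hdL1.1]) ha1.le (by linarith) hw1.le (by linarith) (by
      have := hrt r le_rfl
      linarith) hEb (by linarith)
  obtain ⟨n1, n2, n3, n4, n5, n6, n7, n8, n9, n10, n11, n12⟩ := hnum
  have hCζ : C * (ζ * q) ≤ q := by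
    have h1 : C * ζ ≤ 1 := by
      have h2 : C * ζ ≤ C * ζ * (Sl r + 1) :=
        le_mul_of_one_le_right (by positivity) (by linarith)
      linarith
    have h2 := mul_le_mul_of_nonneg_right h1 hq0.le
    linarith
  have hlvt : ∀ l ≤ r, lvN P c r (L r) l (ow nb) (ow nb) = L l t t := fun l hl => by
    rw [howlv nb l hl, hownb]
  have hlvn : ∀ l ≤ r, lvN P c r (L r) l (ow (nb + M₀)) (ow (nb + M₀)) = L l (t + q) (t + q) :=
    fun l hl => by rw [howlv _ l hl, hownn]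
  obtain ⟨J₁, hJ₁⟩ := radii_ok (M₀ := M₀) (cb := cb) (t := t) (q := q) (a := a)
    (q₁ := ζ / 2 * q) (φ := φ' * q) (ζ := ζ * q) hM1 hq0 (by linarith) ha1.le n3 (by positivity)
    (by linarith) (by linarith) hζq0.le
  simp only [← hok, ← hnb] at hJ₁
  -- the class side
  obtain ⟨K₂, κc, hK₂, hκc, hbas⟩ := HS ow CB ηm bb (fun J => zzV M₀ cb t q a (ζ / 2 * q) J) hok
    hCB hηm0 hηm2 ⟨J₁, fun J hJ k' => by
      obtain ⟨z1, z2, z3, z4, z5, z6, z7⟩ := hJ₁ J hJ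
      exact ⟨z2 k', z3 k', z7 k'⟩⟩
  rw [← hnb] at hbas
  refine hend (S := S') (P := P₂ r) (θ := θ₂ r) (c := c) (C₀ := CB) (a' := t + 3 * q)
    (Eb := Eb r) (ηm := ηm) (ζ := ζ * q) (o := ow) (η := fun _ => ηm) (σ := fun _ => ηm)
    (r₀ := fun _ => min (q / (2 * M₀)) (ζ / 2 * q / 2))
    (lv := fun k l => lvN P c r (L r) l (ow k) (ow k)) (bb := bb) (Dr := Dr) (N := nb + M₀)
    (nb := nb) (n := M₀) (a := a) (w := w) (q₁ := ζ / 2 * q) (s₁ := κ₂ * q) (h := β * q)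
    (h₂ := 2 * (β * q)) (e := e₂ r) (φ := φ' * q) (ι := ζ / 2 * q) (K₁ := K₃) (K₂ := K₂)
    (κc := κc)
    (fun J => zzV M₀ cb t q a (ζ / 2 * q) J) R'.ne R'.tmc R'.pos W.thr₂ R'.tmh
    (R'.inj.mono fun x hx => by
      rw [Set.mem_Iio] at hx ⊢
      omega) hDr
    le_rfl (fun k' _ => ?_) hζq0 hηm1 (fun k' hk' l hl => ?_) (fun k' hk' => ?_) ?_ ?_ ?_ ?_ ?_
    ?_ ?_ (by exact_mod_cast hwa) ?_ ?_ ?_ hβq0 (by positivity) (by positivity) n4 n5 ?_ ?_ ?_ n9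
    (fun l hl => ?_) (fun l hl => ?_) (fun j _ => Or.inr ?_) ?_ (by positivity) (by linarith)
    (by positivity) hK₃ hK₂ hκc ⟨J₁, fun J hJ => ?_⟩ hwin ?_
  · simp only [hok]
    exact (chw_step hM1 hq0 hqM k').1
  · show (C : ℝ) * |lvN P c r (L r) l (ow k') (ow k') - ow k' -
      (lvN P c r (L r) l (ow nb) (ow nb) - ow nb)| ≤ ζ * q
    rw [hlvt l (by omega), howlv k' l (by omega), hownb]
    have h2 := R'.dL l (by omega) (ow k') (by
      rw [hok, add_sub_cancel_left, abs_mul, abs_of_pos hq0]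
      exact mul_le_mul_of_nonneg_right (hVK k' (by omega)) hq0.le)
    rw [hSl l hl, one_mul] at h2
    have e : L l (ow k') (ow k') - L l t t - (ow k' - t) =
      L l (ow k') (ow k') - ow k' - (L l t t - t) := by ring
    rw [e] at h2
    have h3 : C * (ε * q) ≤ ζ * q := by
      calc C * (ε * q) ≤ C * (ζ / (2 * C) * q) :=
            mul_le_mul_of_nonneg_left (mul_le_mul_of_nonneg_right hε2 hq0.le) hC0.le
        _ = ζ * q / 2 := by field_simp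
        _ ≤ ζ * q := by linarith
    exact (mul_le_mul_of_nonneg_left h2 hC0.le).trans h3
  · rcases hk' with rfl | rfl
    · refine ⟨by rw [hownb]; linarith, fun l hl => ?_⟩
      show C * (ζ * q) ≤ lvN P c r (L r) l (ow k') (ow k') ∧
        Eb r + lvN P c r (L r) l (ow k') (ow k') + C * (ζ * q) ≤ 1
      rw [hlvt l hl]
      have h1 := hlowx t (by linarith) (by linarith) l hl
      have h2 := hrt l hl
      constructor <;> linarith
    · refine ⟨by rw [hownn]; linarith, fun l hl => ?_⟩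
      show C * (ζ * q) ≤ lvN P c r (L r) l (ow (nb + M₀)) (ow (nb + M₀)) ∧
        Eb r + lvN P c r (L r) l (ow (nb + M₀)) (ow (nb + M₀)) + C * (ζ * q) ≤ 1
      rw [hlvn l hl]
      have h1 := hlowx (t + q) (by linarith) (by linarith) l hl
      have h2 := hroomx (t + q) (by linarith) (by linarith) l hl
      constructor <;> linarith
  · rw [how0]; linarith
  · rw [how0]; linarith
  · rw [hownb]; linarith
  · rw [hownb]; linarith
  · rw [hownb]; linarith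
  · rw [hownb]; exact n1
  · have h1 : (0 : ℝ) ≤ w := by linarith
    exact_mod_cast h1
  · have h1 : (a : ℝ) ≤ 1 := by linarith
    exact_mod_cast h1
  · have h1 : (w : ℝ) < 1 := by linarith
    exact_mod_cast h1
  · exact W.eθ w (by
      rw [abs_le]
      constructor <;> linarith)
  · show bet (P₂ r) c r a w + β * q + C * (ζ * q) + 2 * (2 * (β * q)) ≤
      lvN P c r (L r) r (ow nb) (ow nb) + κ₂ * q + (a - w)
    rw [hlvt r le_rfl]
    exact n6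
  · show bet (P₂ r) c r a w + β * q + C * (ζ * q) + 2 * (2 * (β * q)) ≤
      lvN P c r (L r) r (ow (nb + M₀)) (ow (nb + M₀)) - (ow (nb + M₀) - w) + (a - w)
    rw [hlvn r le_rfl, hownn]
    exact n7
  · show bet (P₂ r) c r a w + β * q + C * (ζ * q) + 2 * (2 * (β * q)) + ζ / 2 * q ≤
      lvN P c r (L r) r (ow nb) (ow nb) + 2 * (a - w)
    rw [hlvt r le_rfl]
    exact n8
  · show Eb r + lvN P c r (L r) l (ow nb) (ow nb) + 2 * (a - w) + C * (ζ * q) ≤ 1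
    rw [hlvt l hl]
    refine n10 _ ?_
    have := hrt l hl
    linarith
  · show Eb r + lvN P c r (L r) l (ow nb) (ow nb) + max (κ₂ * q) 0 + 2 * (ζ / 2 * q) +
      C * (ζ * q) ≤ 1
    rw [hlvt l hl]
    refine n11 _ ?_
    have := hrt l hl
    linarith
  · show bet (P₂ r) c r a w + β * q ≤ lvN P c r (L r) r (ow nb) (ow nb) + (a - w) + ζ * q +
      2 * (β * q)
    rw [hlvt r le_rfl]
    exact n12
  · rw [hownb]; linarith
  · obtain ⟨z1, z2, z3, z4, z5, z6, z7⟩ := hJ₁ J hJ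
    refine ⟨z1, fun k' _ => z2 k', z3 nb, z4 nb, ?_, ?_⟩
    · rw [hownb]
      exact z5 nb
    · rw [hownb]
      exact z6 nb
  · exact hbas

end Pool.ST76
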