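import Pool.Agent.H76.ST.Enda
import Pool.Agent.H83.VA.T2
import Pool.Agent.H72.T4C.Wnt
import Pool.Agent.H19.V0B.Rec
import Pool.Agent.H23.D2.Rcq

/-!
# A steep place and a flatter last place over slope-one places: the record with the tie

`TaAt`: the class theorem `TaStmt` with its constants. `core_ta`: no record with the box, the fullness
of the last place and the tie in the window `t`.
-/

set_option autoImplicit false

namespace Pool.ST76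

open Finset Real MvPolynomial
open Pool.Agent.H49.Ent Pool.Agent.H32.Dense
open Pool.STK hiding pr2
open Pool.KA Pool.KSAT Pool.K2S Pool.PB Pool.S6C Pool.PKG
open Pool.GEN Pool.LA91 Pool.AVG71 Pool.AVG5 Pool.D2F2 Pool.AVG57
open Pool.RCD Pool.AVG96 Pool.OWN68 Pool.V0F Pool.V0Q Pool.V0T Pool.V0B19 Pool.XR71 Pool.VA83
open Pool.T4C72
open Pool.AJW (CfB)
open Pool.BFL (Pb)
open Pool.D2R (BalD WinB winb_con)
open Pool.CHT (chsys TmH bet)
open Pool.ISO (lvN)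
open Pool.LBT (ThrOf)
open Pool.LEV (Law)
open Pool.T4E (PivN)

/-- **The class theorem `TaStmt`** with its constants. -/
def TaAt (D D' k : ℕ) (al be h lam0 s₁ ξ δ₀ T Λ ι φ₀ : ℝ) : Prop :=
  ∀ {m : ℕ} {S : PCl m} {c : ℕ → Fin m} {sn sp : ℕ → ℝ → ℝ} {G : Set ℝ} {b o w u φ e : ℝ}
    {lam : ℝ → ℝ}, XBox S c k sn sp G al be h b o w u Λ φ e lam → φ ≤ φ₀ * u → 0 ≤ e → e ≤ φ₀ →
  ∀ {K₀ : ℕ} {e₀ ρ₀ π₁ : ℝ}, FulB S c k be w u Λ e lam K₀ e₀ ρ₀ π₁ → π₁ ≤ sn (k + 1) w - φ →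
    ∀ {Dr N M : ℕ} {C₀ a Eb ηm : ℝ} {ow η σ : ℕ → ℝ} {lv bb : ℕ → ℕ → ℝ} {fb fn : ℕ → ℕ}
      {nb n ks : ℕ}, WnT k 1 sn G (2 * be / lam0) b w u Λ φ N C₀ Eb ηm ow lv fb fn nb n ks →
    ∀ E : ℝ, Bas S (fun J F A => ∀ {κ : ℝ} {z : ℕ → ℕ → ℕ} {g₀ : ℕ → ℕ → ℕ}
      {Gc : ℕ → PtT F → ℕ → MvPolynomial (Option (Fin m)) ℝ}
      {H : ℕ → LnT F → ℕ → MvPolynomial (Option (Fin m)) ℝ}
      {GN : PtT F → ℕ → MvPolynomial (Option (Fin m)) ℝ}
      {HN : LnT F → ℕ → MvPolynomial (Option (Fin m)) ℝ},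
      WinB F c (k + 1) D Dr N M C₀ a Eb ηm ow η σ lv bb κ z A g₀ Gc H →
      RadT nb n M J u ow fb fn z →
      (∀ l < k, CfB F ⌊b * J⌋₊ E (c l) A (fun s => s) (fun s => H (fb 0) s l)) →
      LbT F c k 1 D' w u φ E sn A (g₀ (fn 0)) (Gc (fn 0)) GN HN →
      LnO F c k sn w φ K₀ e₀ ρ₀ HN A →
      DjA F c k D' sn b w u T δ₀ (two k (1 + ξ) (be / al * (1 + ξ))) (fb 0) H HN A →
      JtA F c k D' sn b w u φ δ₀ (ow (fn n)) (two k 1 lam0) (fb 0) H HN A →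
      OutA F c k D' w u φ ι s₁ A Gc GN (fb 0) (fn n) (g₀ (fn 0)))

/-- **The constants of the class theorem.** -/
theorem taAt_of (HT : TaStmt) {D D' k : ℕ} {al be h lam0 : ℝ} (hD : 1 ≤ D) (hDD : D ≤ D')
    (hk : 1 ≤ k) (hbe : 1 ≤ be) (hba : be < al) (hh : 0 < h) (hh1 : h ≤ 1) (hl0 : 0 < lam0)
    (hl1 : lam0 ≤ be / al) : ∃ ξ s₁ δ₀ T₀ : ℝ, 0 < ξ ∧ ξ ≤ 1 ∧ be / al * (1 + ξ) ≤ 1 ∧
    0 < s₁ ∧ 0 < δ₀ ∧
    ∀ T : ℝ, T₀ ≤ T → ∃ Λ : ℝ, 1 ≤ Λ ∧ ∀ ι : ℝ, 0 < ι → ∃ φ₀ : ℝ, 0 < φ₀ ∧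
      TaAt D D' k al be h lam0 s₁ ξ δ₀ T Λ ι φ₀ :=
  HT D D' k al be h lam0 hD hDD hk hbe hba hh hh1 hl0 hl1

/-- A smaller precision of the closed gradient. -/
theorem OutA.s1 {m J : ℕ} {F : Fam m J} {c : ℕ → Fin m} {k D' : ℕ} {w u φ ι s₁ s₂ : ℝ}
    {A : F.Ω → Prop} {G : ℕ → PtT F → ℕ → MvPolynomial (Option (Fin m)) ℝ}
    {GN : PtT F → ℕ → MvPolynomial (Option (Fin m)) ℝ} {kb kn : ℕ} {γ : ℕ → ℕ}
    (h : OutA F c k D' w u φ ι s₁ A G GN kb kn γ) (hs : s₂ ≤ s₁) (hu : 0 ≤ u) :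
    OutA F c k D' w u φ ι s₂ A G GN kb kn γ := by
  obtain ⟨h1, h2, W, mu, h3, h4, h5, h6⟩ := h
  have hp : (2 : ℝ) ^ (-(s₁ * u * J)) ≤ 2 ^ (-(s₂ * u * J)) := by
    refine Real.rpow_le_rpow_of_exponent_le one_le_two (neg_le_neg ?_)
    exact mul_le_mul_of_nonneg_right (mul_le_mul_of_nonneg_right hs hu) (Nat.cast_nonneg J)
  refine ⟨h1, fun ω ν a1 a2 a3 i hi => (h2 ω ν a1 a2 a3 i hi).trans hp, W, mu, h3, h4, h5, ?_⟩
  refine le_trans ?_ h6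
  have hn : ∀ ω, 0 ≤ Pool.Agent.H49.Ent.cond F.p A True ω := fun ω => by
    unfold Pool.Agent.H49.Ent.cond
    split_ifs
    · exact div_nonneg (F.isLaw.1 ω) (Pe_nonneg F.isLaw A)
    · exact le_rfl
  unfold Pb
  refine Finset.sum_le_sum fun ω _ => ?_
  by_cases a1 : ∃ i < k, (2 : ℝ) ^ (-(s₂ * u * J)) <
      |ggT F c k G GN kb kn γ k ω i - (mu (slam F W ω) i).eval (Pool.PB.Trl.rt F W ω)|
  · obtain ⟨i, hi, a2⟩ := a1
    rw [if_pos ⟨i, hi, a2⟩, if_pos ⟨i, hi, hp.trans_lt a2⟩]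
  · rw [if_neg a1]
    split_ifs
    · exact hn ω
    · exact le_rfl

/-- **The numbers of the end.** -/
theorem num_ta {C s s₁ : ℝ} (hC : 10 ≤ C) (hs : 1 < s) (hs₁ : 0 < s₁) :
    ∃ κm β ζ z₀ : ℝ, 0 < κm ∧ κm ≤ s₁ ∧ κm ≤ 1 ∧ 0 < β ∧ 32 * β ≤ κm ∧ 32 * β ≤ s - 1 ∧
      C * ζ * (s + 1) = β ∧ 0 < z₀ ∧ z₀ ≤ ζ ∧ C * (z₀ + z₀) ≤ ζ ∧ z₀ ≤ 1 / 32 ∧
      C * z₀ ≤ 1 / 32 := by
  have hC0 : 0 < C := by linarith
  have hs0 : 0 < s + 1 := by linarith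
  obtain ⟨κm, hκm⟩ : ∃ κm : ℝ, κm = min s₁ 1 := ⟨_, rfl⟩
  have a1 : 0 < κm := by rw [hκm]; exact lt_min hs₁ one_pos
  have a2 : κm ≤ s₁ := by rw [hκm]; exact min_le_left _ _
  have a3 : κm ≤ 1 := by rw [hκm]; exact min_le_right _ _
  obtain ⟨β, hβ⟩ : ∃ β : ℝ, β = min κm (s - 1) / 32 := ⟨_, rfl⟩
  have b1 : 0 < β := by
    rw [hβ]
    have : 0 < min κm (s - 1) := lt_min a1 (by linarith)
    positivity
  have b2 : 32 * β ≤ κm := by
    rw [hβ]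
    have := min_le_left κm (s - 1)
    linarith
  have b3 : 32 * β ≤ s - 1 := by
    rw [hβ]
    have := min_le_right κm (s - 1)
    linarith
  obtain ⟨ζ, hζ⟩ : ∃ ζ : ℝ, ζ = β / (C * (s + 1)) := ⟨_, rfl⟩
  have c1 : 0 < ζ := by rw [hζ]; positivity
  have c2 : C * ζ * (s + 1) = β := by
    rw [hζ]
    field_simp
  have c3 : C * ζ ≤ 1 / 32 := by
    have h1 : C * ζ ≤ C * ζ * (s + 1) := le_mul_of_one_le_right (by positivity) (by linarith)
    linarith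
  have c4 : ζ ≤ C * ζ := le_mul_of_one_le_left c1.le (by linarith)
  obtain ⟨z₀, hz₀⟩ : ∃ z₀ : ℝ, z₀ = ζ / (2 * C) := ⟨_, rfl⟩
  have d1 : 0 < z₀ := by rw [hz₀]; positivity
  have d2 : C * (z₀ + z₀) = ζ := by
    rw [hz₀]
    field_simp
    norm_num
  have d3 : z₀ ≤ C * z₀ := le_mul_of_one_le_left d1.le (by linarith)
  refine ⟨κm, β, ζ, z₀, a1, a2, a3, b1, b2, b3, c2, d1, by linarith, d2.le, by linarith,
    by linarith⟩

/-- **No record with the tie** in the window `t`. -/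
theorem core_ta {k D D' Dr Dr₀ C S₀ τ : ℕ} {h lam0 ξ s₁ δ₀ T Λ Λt z₀ φ₀ κm β ζ φL φc e CB : ℝ}
    (hend : EndA k 1 (k + 2) D D' C) (hC10 : 10 ≤ C) (hk : 1 ≤ k) (hDr : D ≤ Dr)
    (hDr₀ : Dr₀ ≤ Dr) (hCB1 : 1 ≤ CB) (hwin₀ : WinbAt (k + 2) k S₀ D Dr CB)
    (hwin₁ : WinbAt (k + 2) (k + 1) S₀ D Dr CB) (hΛ : 1 ≤ Λ)
    -- the numbers
    (hκm : κm ≤ s₁) (hκm1 : κm ≤ 1) (hβ : 0 < β) (hβκ : 32 * β ≤ κm)
    (hz₀ : 0 < z₀) (hz₀ζ : z₀ ≤ ζ) (hCz₀ : C * (z₀ + z₀) ≤ ζ) (hz₀1 : z₀ ≤ 1 / 32)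
    (hCz : C * z₀ ≤ 1 / 32) (hφL : 0 < φL) (hφLφ : φL ≤ φ₀) (hφLz : 16 * φL ≤ z₀)
    (hφc : 0 < φc) (hφcL : φc ≤ φL) (he0 : 0 ≤ e) (he : e ≤ φ₀)
    -- the record
    {S : PCl (k + 2)} {al' : ℝ} {g₀ : ℝ → ℝ}
    {P : List (Fin (k + 2)) × Fin (k + 2) → ℝ → ℝ → ℝ}
    {θ : ℝ} {P₂ : ℕ → List (Fin (k + 2)) × Fin (k + 2) → ℝ → ℝ → ℝ} {θ₂ Eb e₂ : ℕ → ℝ}
    {c : ℕ → Fin (k + 2)} {Pt : ℝ → ℝ → ℝ} {rt : ℝ → ℝ} {K₀ g : ℝ} {L Tb : ℕ → ℝ → ℝ → ℝ}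
    {Sl : ℕ → ℝ} {κ : ℕ → Kg} {G : Set ℝ} {N : ℕ} {A V : ℕ → ℝ} {S₂ N' : ℕ} {V' : ℕ → ℝ}
    {K ε q t : ℝ}
    (R : RecG S al' g₀ P θ P₂ θ₂ Eb e₂ c Pt rt h K₀ g L Tb Sl κ G S₀ N A V S₂ N' V' K ε q t)
    (hV : TaAt D D' k (Sl k) (Sl (k + 1)) h lam0 s₁ ξ δ₀ T Λ z₀ φ₀)
    (hβs : 32 * β ≤ Sl k - 1) (hζ : C * ζ * (Sl k + 1) = β)
    {M₀ cb co : ℕ} {sp : ℕ → ℝ → ℝ} {lam : ℝ → ℝ} (hM : 1 ≤ M₀) (hco : Λ + 1 ≤ co)
    (hcbΛ : Λ ≤ cb) (hcbτ : τ ≤ cb) (hN' : N' = (cb + co) * M₀ + 1)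
    (hV' : ∀ j < N', V' j = chV M₀ cb j)
    (hK : (cb : ℝ) + co + Λ + Sl k + 10 ≤ K) (hΛt : Λt ≤ 3 * K)
    (hε : 0 < ε) (hεc : 4 * ε ≤ φc) (hεz : 2 * C * ε ≤ z₀) (hεβ : 16 * ε ≤ β)
    (hMφ : 1 / M₀ ≤ φc)
    (hSl : ∀ l < k, Sl l = 1) (hs1 : 1 ≤ Sl (k + 1)) (hs : Sl (k + 1) < Sl k)
    (hl0 : 0 < lam0) (hl1 : lam0 ≤ Sl (k + 1) / Sl k)
    (hκt : κ k = .thin) (hj₀ : ∃ j < N, A j = 1 ∧ V j = z₀ / 2)
    (hbox : XBox S c k (fun l v => L l v v) sp (grS M₀ cb co t q) (Sl k) (Sl (k + 1)) h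
      (t - cb * q) (t + co * q) t q Λ (φL * q) e lam)
    {e₀ ρ₀ : ℝ} (hful : FulB S c k (Sl (k + 1)) t q Λ e lam D' e₀ ρ₀ (L (k + 1) t t - φL * q))
    (htie : TieWA S c k D D' (fun l v => L l v v) (grS M₀ cb co t q) τ (Sl k) (Sl (k + 1)) ξ lam0
      (t - cb * q) t q Λt T δ₀ (φL * q) (φc * q) Dr₀ e₀ ρ₀) : False := by
  have hq0 := R.q0
  have ht0 := R.t0
  have ht1 := R.t1
  obtain ⟨s, hse⟩ : ∃ s, s = Sl k := ⟨_, rfl⟩
  have hC1 : (10 : ℝ) ≤ C := by exact_mod_cast hC10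
  have hC0 : (0 : ℝ) < C := by linarith
  have hs1' : 1 < s := by rw [hse]; linarith
  have hs0 : 0 < s := by linarith
  have hM0 : (0 : ℝ) < M₀ := by exact_mod_cast hM
  have hcb0 : (0 : ℝ) ≤ cb := Nat.cast_nonneg _
  have hco0 : (0 : ℝ) ≤ co := Nat.cast_nonneg _
  have hco1 : 1 ≤ co := by
    have : (1 : ℝ) ≤ co := by linarith
    exact_mod_cast this
  have hK1 : 1 ≤ K := by
    rw [← hse] at hK
    linarith
  have hKq : cb * q + co * q + Λ * q + s * q + 10 * q ≤ K * q := by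
    have := mul_le_mul_of_nonneg_right hK hq0.le
    rw [← hse] at this
    linarith
  have hcbq : 0 ≤ cb * q := by positivity
  have hcoq : 0 ≤ co * q := by positivity
  have hΛq : q ≤ Λ * q := le_mul_of_one_le_left hq0.le hΛ
  have hsq : q < s * q := by
    have := mul_lt_mul_of_pos_right hs1' hq0
    linarith
  have hΛcb : Λ * q ≤ cb * q := mul_le_mul_of_nonneg_right hcbΛ hq0.le
  have hεq : 0 < ε * q := by positivity
  have hφcq : 0 < φc * q := by positivity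
  have hφLq : 0 < φL * q := by positivity
  have hqM : q / M₀ ≤ φc * q := by
    have h1 := mul_le_mul_of_nonneg_right hMφ hq0.le
    have h2 : 1 / (M₀ : ℝ) * q = q / M₀ := by ring
    linarith
  have hφcLq : φc * q ≤ φL * q := mul_le_mul_of_nonneg_right hφcL hq0.le
  have hφLzq : 16 * (φL * q) ≤ z₀ * q := by
    have := mul_le_mul_of_nonneg_right hφLz hq0.le
    linarith
  have hz₀q : 0 < z₀ * q := by positivity
  have hz₀q1 : z₀ * q ≤ 1 / 32 * q := mul_le_mul_of_nonneg_right hz₀1 hq0.le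
  have hCzq : C * (z₀ * q) ≤ 1 / 32 * q := by
    have := mul_le_mul_of_nonneg_right hCz hq0.le
    linarith
  -- the windows
  obtain ⟨nb, hnb⟩ : ∃ nb : ℕ, nb = cb * M₀ := ⟨_, rfl⟩
  obtain ⟨ow, how⟩ : ∃ ow : ℕ → ℝ, ow = fun k => t + chV M₀ cb k * q := ⟨_, rfl⟩
  have hok : ∀ k, ow k = t + chV M₀ cb k * q := fun k => by rw [how]
  have how0 : ow 0 = t - cb * q := by rw [hok, chV_zero]; ring
  have hownb : ow nb = t := by rw [hok, hnb, chV_mid hM]; ring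
  have hownn : ow (nb + M₀) = t + q := by
    rw [hok, hnb, chV_nb hM, div_self hM0.ne']
    ring
  have hNN : nb + M₀ < N' := by
    rw [hN', hnb, add_mul]
    have h2 : M₀ ≤ co * M₀ := Nat.le_mul_of_pos_left _ (by omega)
    omega
  have hVK : ∀ k' < N', |chV M₀ cb k'| ≤ K := fun k' hk' =>
    (chV_abs (M₀ := M₀) (cb := cb) (co := co) (k := k') hM (by omega)).trans (by
      rw [← hse] at hK
      linarith)
  have hin : ∀ y : ℝ, t - cb * q ≤ y → y ≤ t + co * q → |y - t| ≤ K * q := fun y h1 h2 => by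
    rw [abs_le]
    constructor <;> linarith
  have hroom : ∀ i, 1 ≤ i → i ≤ k + 1 → ∀ y : ℝ, t - cb * q ≤ y → y ≤ t + co * q → ∀ l ≤ i,
      L l y y + Eb i + 3 * K * q < 1 := fun i hi1 hi2 y h1 h2 l hl =>
    (R.tg i hi1 (by omega)).room l hl y (hin y h1 h2)
  have h3K : 3 * q ≤ 3 * K * q := by
    have := mul_le_mul_of_nonneg_right hK1 hq0.le
    linarith
  have h3KC : (C : ℝ) * (z₀ * q) ≤ 3 * K * q := by linarith
  have h3KΛ : Λ ≤ 3 * K := by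
    rw [← hse] at hK
    linarith
  have hlow : ∀ y : ℝ, t - cb * q ≤ y → y ≤ t + co * q → ∀ l ≤ k + 1, y ≤ L l y y :=
    fun y h1 h2 l hl => rec_low (r := k + 1) R hl (by linarith) (by linarith)
  have hEb0 : ∀ i, 1 ≤ i → i ≤ k + 1 → 0 < Eb i := fun i hi1 hi2 =>
    (R.tg i hi1 (by omega)).Eb0
  have htco : t ≤ t + co * q := by linarith
  have htcb : t - cb * q ≤ t := by linarith
  have hqco : q ≤ co * q := le_mul_of_one_le_left hq0.le (by linarith)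
  -- the error of the balls
  obtain ⟨ηm, hηm⟩ : ∃ ηm : ℝ, ηm = min (z₀ / (C * CB)) (φc / CB) * q := ⟨_, rfl⟩
  have hCB0 : 0 < CB := by linarith
  have hηm0 : 0 < ηm := by
    rw [hηm]
    exact mul_pos (lt_min (by positivity) (by positivity)) hq0
  have hηm1 : C * (CB * ηm) ≤ z₀ * q := by
    have h1 : ηm ≤ z₀ / (C * CB) * q := by
      rw [hηm]
      exact mul_le_mul_of_nonneg_right (min_le_left _ _) hq0.le
    calc C * (CB * ηm) ≤ C * (CB * (z₀ / (C * CB) * q)) :=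
          mul_le_mul_of_nonneg_left (mul_le_mul_of_nonneg_left h1 hCB0.le) hC0.le
      _ = z₀ * q := by field_simp
  have hηm2 : CB * ηm ≤ φc * q := by
    have h1 : ηm ≤ φc / CB * q := by
      rw [hηm]
      exact mul_le_mul_of_nonneg_right (min_le_right _ _) hq0.le
    calc CB * ηm ≤ CB * (φc / CB * q) := mul_le_mul_of_nonneg_left h1 hCB0.le
      _ = φc * q := by field_simp
  obtain ⟨r₀, hr₀e⟩ : ∃ r₀ : ℝ, r₀ = min (q / (2 * M₀)) (z₀ / 2 * q / 2) := ⟨_, rfl⟩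
  have hr₀ : 0 < r₀ := by
    rw [hr₀e]
    exact lt_min (by positivity) (by positivity)
  obtain ⟨lv, hlv⟩ : ∃ lv : ℕ → ℕ → ℝ, lv = fun t' l => L l (ow t') (ow t') := ⟨_, rfl⟩
  have hlve : ∀ t' l, lv t' l = L l (ow t') (ow t') := fun t' l => by rw [hlv]
  -- the families of balls
  have hfam : ∀ i, 1 ≤ i → i ≤ k + 1 → WinbAt (k + 2) i S₀ D Dr CB →
      ∃ (K₁ : ℝ) (b : ℕ → ℕ → ℝ), 0 < K₁ ∧ ∀ κ' : ℝ, 0 < κ' →
      Bas S (fun J F A => ∀ z : ℕ → ℕ → ℕ, (∀ t' ≤ nb + M₀, ∀ j ≤ 2, r₀ * J ≤ z t' j ∧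
        z t' j ≤ ⌊(t + 3 * q) * J⌋₊ - ⌊ow t' * J⌋₊) →
      ∃ (B : F.Ω → Prop) (g₀ : ℕ → ℕ → ℕ)
        (Gc : ℕ → PtT F → ℕ → MvPolynomial (Option (Fin (k + 2))) ℝ)
        (H : ℕ → LnT F → ℕ → MvPolynomial (Option (Fin (k + 2))) ℝ), Sub B A ∧
        Pe F.p A ≤ K₁ * Pe F.p B ∧
        WinB F c i D Dr (nb + M₀) 2 CB (t + 3 * q) (Eb i) ηm ow (fun _ => ηm)
          (fun _ => ηm) lv b κ' z B g₀ Gc H) := by
    intro i hi1 hi2 hw
    obtain ⟨K₁, b, hK₁, hb⟩ := hw (S := S) (P := P) (θ := θ) (c := c) (Pt := L i)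
      (a := t + 3 * q) (Eb := Eb i) (ηm := ηm) (o := ow) (η := fun _ => ηm)
      (σ := fun _ => ηm) (r₀ := fun _ => r₀) (nb + M₀) 2 R.thr R.th0 R.tmh
      (R.inj.mono fun y hy => by
        rw [Set.mem_Iio] at hy ⊢
        omega) (R.lawL i (by omega)) (hEb0 i hi1 hi2).le (fun k' hk' => by
        rw [hok, ← hV' k' (by omega)]
        have h1 := abs_le.1 (hVK k' (by omega))
        have h2 : chV M₀ cb k' ≤ 1 := by
          have h3 := chV_mono (M₀ := M₀) (cb := cb) hk'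
          rwa [hnb, chV_nb hM, div_self hM0.ne'] at h3
        rw [← hV' k' (by omega)] at h1 h2
        refine rec_balT R (by omega) (by omega) (by omega) (by linarith) (by linarith [h1.1]) ?_
        rw [hV' k' (by omega)]
        exact hVK k' (by omega))
      (fun k' _ => ⟨hηm0, hηm0, le_rfl, hr₀, le_rfl⟩)
    refine ⟨K₁, b, hK₁, fun κ' hκ' => ?_⟩
    refine Bas.mono 0 (hb κ' hκ') ?_
    intro J _ F A' hA z hz
    obtain ⟨B, g₁, Gc, H, b1, b2, b3⟩ := hA z hz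
    refine ⟨B, g₁, Gc, H, b1, b2, ?_⟩
    refine WinB.lvc b3 fun k' _ l hl => ?_
    rw [hlve, ← R.lv_at (i := i) (by omega) hl]
  obtain ⟨K₁, bk, hK₁, hfk⟩ := hfam k hk (by omega) hwin₀
  obtain ⟨K₂, bf, hK₂, hff⟩ := hfam (k + 1) (by omega) le_rfl hwin₁
  -- the class theorem and the tie
  have hlb2 : 1 < 2 * Sl (k + 1) / lam0 := by
    rw [lt_div_iff₀ hl0, one_mul]
    have h1 : Sl (k + 1) / Sl k ≤ Sl (k + 1) := div_le_self (by linarith) (by linarith)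
    linarith
  have hwn : ∀ (Λ' φ' : ℝ), Λ' ≤ 3 * K → φc * q ≤ φ' → WnT k 1 (fun l v => L l v v)
      (grS M₀ cb co t q) (2 * Sl (k + 1) / lam0) (t - cb * q) t q Λ' φ' (nb + M₀) CB (Eb (k + 1)) ηm
      ow lv (fun t' => t') (fun t' => nb + t') nb M₀
      ⌊(M₀ : ℝ) / (2 * Sl (k + 1) / lam0)⌋₊ := by
    intro Λ' φ' h1 h2
    rw [hlv]
    refine wnt_of (N' := (cb + co) * M₀ + 1) hM hco1 rfl hnb hok hq0 hlb2 (hqM.trans h2)
      (hηm2.trans h2) fun l hl => ?_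
    have h3 := mul_le_mul_of_nonneg_right h1 hq0.le
    have := hroom (k + 1) (by omega) le_rfl t htcb htco l hl
    linarith
  have hT := htie (Dr := Dr) (M' := 2) (a := t + 3 * q) (η := fun _ => ηm) (σ := fun _ => ηm)
    (bb := bf) hDr₀ (hwn Λt (φc * q) hΛt le_rfl) ⟨(cb - τ) * M₀, by
      rw [hnb]
      exact Nat.mul_le_mul_right _ (Nat.sub_le _ _), by
      show ow ((cb - τ) * M₀) = t - τ * q
      rw [hok]
      have h1 : chV M₀ cb ((cb - τ) * M₀) = -τ := by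
        unfold chV
        rw [Nat.cast_mul, Nat.cast_sub hcbτ, mul_div_assoc, div_self hM0.ne']
        ring
      rw [h1]
      ring⟩
  have hW := hwn Λ (φL * q) h3KΛ hφcLq
  have hVb := hV hbox (mul_le_mul_of_nonneg_right hφLφ hq0.le) he0 he hful
    le_rfl (Dr := Dr) (M := 2) (a := t + 3 * q) (η := fun _ => ηm) (σ := fun _ => ηm)
    (bb := bf) hW 1
  obtain ⟨cT, κT, hcT, hκT, hT⟩ := hT
  have hVb' := Pool.T4E.bas_evU hVb (κ := cT) hcT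
  have hcls : Bas S (fun J F A => ∀ {κ' : ℝ} {z : ℕ → ℕ → ℕ} {g₁ : ℕ → ℕ → ℕ}
      {Gc : ℕ → PtT F → ℕ → MvPolynomial (Option (Fin (k + 2))) ℝ}
      {H : ℕ → LnT F → ℕ → MvPolynomial (Option (Fin (k + 2))) ℝ}, κ' ≤ κT →
      WinB F c (k + 1) D Dr (nb + M₀) 2 CB (t + 3 * q) (Eb (k + 1)) ηm ow (fun _ => ηm)
        (fun _ => ηm) lv bf κ' z A g₁ Gc H →
      RadT nb M₀ 2 J q ow (fun t' => t') (fun t' => nb + t') z →
      (∀ l < k, CfB F ⌊(t - cb * q) * J⌋₊ 1 (c l) A (fun s => s) (fun s => H 0 s l)) →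
      ∃ (B : F.Ω → Prop) (GN : PtT F → ℕ → MvPolynomial (Option (Fin (k + 2))) ℝ)
        (HN : LnT F → ℕ → MvPolynomial (Option (Fin (k + 2))) ℝ), Sub B A ∧
        cT * Pe F.p A ≤ Pe F.p B ∧
        LbT F c k 1 D' t q (φL * q) 1 (fun l v => L l v v) B (g₁ nb) (Gc nb) GN HN ∧
        OutA F c k D' t q (φL * q) z₀ κm B Gc GN 0 (nb + M₀) (g₁ nb)) := by
    refine Bas.mono 0 (hT.and hVb') ?_
    rintro J - F A ⟨h2, h3⟩ κ' z g₁ Gc H hκ' W hR hC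
    obtain ⟨B, GN, HN, c1, c2, c3, c4, c5, c6⟩ := h2 hκ' W hR hC
    have W₂ : WinB F c (k + 1) D Dr (nb + M₀) 2 CB (t + 3 * q) (Eb (k + 1)) ηm ow (fun _ => ηm)
        (fun _ => ηm) lv bf (max κ' 0 / cT) z B g₁ Gc H :=
      W.res c1 c2 (div_nonneg (le_max_right _ _) hcT.le) (by
        rw [div_mul_cancel₀ _ hcT.ne']
        exact le_max_left _ _)
    have h4 := h3 B c1 c2 W₂ hR (fun l hl ω hω => hC l hl ω (c1 ω hω)) c3 c4 c5 c6
    exact ⟨B, GN, HN, c1, c2, c3, OutA.s1 h4 hκm hq0.le⟩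
  -- the last windows
  obtain ⟨j, hj, hj1, hj2⟩ := hj₀
  have W := R.tg k hk (by omega)
  obtain ⟨d, hd, hrat⟩ := W.rat j hj (β / 8 * q) (by positivity)
  rw [hj1, hj2, one_mul] at hrat
  obtain ⟨a, ha1, ha2⟩ : ∃ a : ℚ, t + q < a ∧ (a : ℝ) < t + q + min d (β * q) :=
    exists_rat_btwn (by
      have : 0 < min d (β * q) := lt_min hd (by positivity)
      linarith)
  obtain ⟨w, hw1, hw2⟩ : ∃ w : ℚ, t + z₀ / 2 * q < w ∧
      (w : ℝ) < t + z₀ / 2 * q + min d (z₀ * q / 4) := exists_rat_btwn (by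
      have : 0 < min d (z₀ * q / 4) := lt_min hd (by positivity)
      linarith)
  have ha3 := min_le_left d (β * q)
  have ha4 := min_le_right d (β * q)
  have hw3 := min_le_left d (z₀ * q / 4)
  have hw4 := min_le_right d (z₀ * q / 4)
  have hz₀2 : z₀ / 2 * q = z₀ * q / 2 := by ring
  have hβm1 : β * q ≤ 1 / 32 * q := mul_le_mul_of_nonneg_right (by linarith) hq0.le
  have hwa : (w : ℝ) ≤ a := by linarith
  have ha5 : (a : ℝ) ≤ t + 3 / 2 * q := by linarith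
  have hκm0 : 0 < κm := by linarith
  -- the numbers of the place
  have hbr := (hrat a w ha1.le (by linarith) hw1.le (by linarith) hwa).1
  have hkd := R.kd k (by omega)
  rw [hκt] at hkd
  obtain ⟨-, hthin⟩ := hkd
  have hth := hthin (t + q) (t + z₀ / 2 * q) (by linarith) (by linarith) (by linarith)
  have hdT := abs_le.1 (R.dT k (by omega) (t + z₀ / 2 * q) (by
    rw [add_sub_cancel_left, abs_of_pos (by positivity)]
    linarith))
  have hdL1 := abs_le.1 (R.dL k (by omega) (t + q) (by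
    rw [add_sub_cancel_left, abs_of_pos hq0]
    linarith))
  have hEbe := W.Ebe
  have hrt := hroom k hk (by omega) t htcb htco
  have hpivn : PivN (P₂ k) (θ₂ k) c k 0 C (Eb k) ow lv nb
      (nb + M₀) w a (z₀ / 2 * q) (κm * q) (β * q) (2 * (β * q)) (e₂ k) (ζ * q) := by
    obtain ⟨n2, n3, n4, n5, n6, n7, n8, n9, n10, n11, n12⟩ := pv_num (C := C) (q := q) (t := t)
      (β := β) (ζ := ζ) (z₀ := z₀) (s := Sl k) (κm := κm) (ε := ε) (L0 := L k t t)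
      (LN := L k (t + q) (t + q)) (bt := bet (P₂ k) c k a w) (Eb := Eb k)
      (e := e₂ k) (a := a) (w := w) hq0 (by linarith) hβ hβκ hβs hκm1 hz₀ hz₀ζ hζ hε.le
      (by linarith) (by
        have h1 : (Sl k - 1) * (z₀ / 2 * q) = Sl k * (t + z₀ / 2 * q - t) - z₀ / 2 * q := by ring
        rw [h1]
        linarith [hdT.2]) (by
        have h1 : Sl k * (t + q - t) = Sl k * q := by ring
        rw [h1] at hdL1
        linarith [hdL1.1]) ha1.le (by linarith) hw1.le (by linarith) (by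
        have := hrt k le_rfl
        linarith) (hEb0 k hk (by omega)) (by linarith)
    refine ⟨by exact_mod_cast hwa, ?_, ?_, by positivity, by positivity, by positivity,
      by positivity, n4, n5, ?_, ?_, ?_, n9, fun l hl => ?_, fun l hl => ?_, fun j _ => Or.inr ?_⟩
    · have h1 : (a : ℝ) ≤ 1 := by linarith
      exact_mod_cast h1
    · exact W.eθ w (by
        rw [abs_le]
        constructor <;> linarith)
    · rw [hlve, hownb]
      exact n6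
    · rw [hlve, hownn]
      exact n7
    · rw [hlve, hownb]
      exact n8
    · rw [hlve, hownb]
      refine n10 _ ?_
      have := hrt l hl
      linarith
    · rw [hlve, hownb]
      refine n11 _ ?_
      have := hrt l hl
      linarith
    · rw [hlve, hownb]
      exact n12
  -- the end
  obtain ⟨J₁, hJ₁⟩ := radii_ok (M₀ := M₀) (cb := cb) (t := t) (q := q) (a := a)
    (q₁ := z₀ / 2 * q) (φ := φL * q) (ζ := z₀ * q) hM hq0 (by linarith) ha1.le ha5 (by positivity)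
    (by linarith) (by linarith) hz₀q.le
  simp only [← hok, ← hnb, ← hr₀e] at hJ₁
  have hεz₀ : C * (ε * q) ≤ z₀ * q / 2 := by
    have := mul_le_mul_of_nonneg_right hεz hq0.le
    linarith
  have hKm : ∀ J (F : Fam (k + 2) J) (A B : F.Ω → Prop) (K' : ℝ), K' ≤ max K₁ K₂ →
      Pe F.p A ≤ K' * Pe F.p B → Pe F.p A ≤ max K₁ K₂ * Pe F.p B := fun J F A B K' h1 h2 =>
    h2.trans (mul_le_mul_of_nonneg_right h1 (Pe_nonneg F.isLaw B))
  refine hend (S := S) (P := P₂ k) (θ := θ₂ k) (Ek := Eb k) (Ef := Eb (k + 1))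
    (e := e₂ k) (s₁ := κm) (h := β * q)
    (h₂ := 2 * (β * q)) (ζ := ζ * q) (c := c)
    (C₀ := CB) (a' := t + 3 * q) (ηm := ηm) (ζ₀ := z₀ * q) (ι := z₀)
    (φ := φL * q) (u := q) (K₁ := max K₁ K₂) (cT := cT) (κT := κT)
    (o := ow) (η := fun _ => ηm) (σ := fun _ => ηm) (r₀ := fun _ => r₀)
    (sn := fun l v => L l v v) (lv := lv) (bk := bk) (bf := bf) (Dr := Dr) (N := nb + M₀)
    (nb := nb) (n := M₀) (w := w) (a := a) (q₁ := z₀ / 2 * q)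
    (fun J => zzV M₀ cb t q a (z₀ / 2 * q) J) R.ne
    R.tmc R.pos R.tmh R.inj hDr le_rfl (fun t' _ => ?_) hz₀q hηm1 (fun t' ht' l hl => ?_)
    (fun t' ht' => ?_) ?_ ?_ ?_ ?_ ?_ ?_ hφLq.le ?_ (by positivity) (lt_max_of_lt_left hK₁) hcT hκT
    W.thr₂ ?_ hpivn ⟨J₁, fun J hJ => ?_⟩ (fun κ' hκ' => ?_) (fun κ' hκ' => ?_) ?_
  · simp only [hok]
    exact (chw_step hM hq0 hqM t').1
  · rw [hlve, hlve, hownb]
    have h2 := R.dL l (by omega) (ow t') (by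
      rw [hok, add_sub_cancel_left, abs_mul, abs_of_pos hq0]
      exact mul_le_mul_of_nonneg_right (hVK t' (by omega)) hq0.le)
    rw [hSl l hl, one_mul] at h2
    have e1 : L l (ow t') (ow t') - L l t t - (ow t' - t) =
      L l (ow t') (ow t') - ow t' - (L l t t - t) := by ring
    rw [e1] at h2
    exact (mul_le_mul_of_nonneg_left h2 hC0.le).trans (by linarith)
  · rcases ht' with rfl | rfl
    · refine ⟨by rw [hownb]; linarith, fun l hl => ?_, fun l hl => ?_, fun l hl => ?_⟩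
      · rw [hlve, hownb]
        have h1 := hlow t htcb htco l hl
        linarith
      · rw [hlve, hownb]
        have h2 := hroom k hk (by omega) t htcb htco l hl
        linarith
      · rw [hlve, hownb]
        have h2 := hroom (k + 1) (by omega) le_rfl t htcb htco l hl
        linarith
    · refine ⟨by rw [hownn]; linarith, fun l hl => ?_, fun l hl => ?_, fun l hl => ?_⟩
      · rw [hlve, hownn]
        have h1 := hlow (t + q) (by linarith) (by linarith) l hl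
        linarith
      · rw [hlve, hownn]
        have h2 := hroom k hk (by omega) (t + q) (by linarith) (by linarith) l hl
        linarith
      · rw [hlve, hownn]
        have h2 := hroom (k + 1) (by omega) le_rfl (t + q) (by linarith) (by linarith) l hl
        linarith
  · rw [how0]; linarith
  · rw [how0]; linarith
  · rw [hownb]; linarith
  · rw [hownb]; linarith
  · have h1 : (0 : ℝ) ≤ w := by linarith
    exact_mod_cast h1
  · have h1 : (w : ℝ) < 1 := by linarith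
    exact_mod_cast h1
  · linarith
  · have h1 := mul_le_mul_of_nonneg_right hCz₀ hq0.le
    have h2 : C * (z₀ + z₀) * q = C * (z₀ * q + z₀ * q) := by ring
    rw [h2] at h1
    exact h1
  · obtain ⟨z1, z2, z3, z4, z5, z6, z7⟩ := hJ₁ J hJ
    refine ⟨z1, fun k' _ => z2 k', z3 nb, z4 nb, ?_, ?_⟩
    · rw [hownb]
      exact z5 nb
    · rw [hownb]
      exact z6 nb
  · refine Bas.mono 0 (hfk κ' hκ') ?_
    intro J _ F A hA z hz
    obtain ⟨B, g₁, Gc, H, b1, b2, b3⟩ := hA z hz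
    exact ⟨B, g₁, Gc, H, b1, hKm J F A B K₁ (le_max_left _ _) b2, b3⟩
  · refine Bas.mono 0 (hff κ' hκ') ?_
    intro J _ F A hA z hz
    obtain ⟨B, g₁, Gc, H, b1, b2, b3⟩ := hA z hz
    exact ⟨B, g₁, Gc, H, b1, hKm J F A B K₂ (le_max_right _ _) b2, b3⟩
  · refine Bas.mono J₁ hcls ?_
    rintro J hJ F A h1 κ' g₁ Gc H hκ hW' hc1
    obtain ⟨z1, z2, z3, z4, z5, z6, z7⟩ := hJ₁ J hJ
    have hJ0 : (0 : ℝ) ≤ J := Nat.cast_nonneg J
    rw [how0] at hc1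
    rw [hownb]
    exact h1 hκ hW' ⟨fun t' _ => ⟨0, by omega, z2 t'⟩, fun t' _ => ⟨0, by omega, z2 (nb + t')⟩,
      1, by omega, 2, le_rfl, (z3 0).trans (mul_le_mul_of_nonneg_right (by linarith) hJ0),
      z7 0⟩ hc1

end Pool.ST76
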