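import Pool.Agent.H83.VA.T
import Pool.Agent.H17.T4.EndT
import Pool.Agent.H92.V0F.Vsc

/-!
# A steep place below other places: the end, two families of balls

`EndA`: a class whose large events have, on a part, closed labels of the places `c k, …, c (k + f)`
and a closed gradient of the place `c k` (`OutA`) is empty, when the numbers of the place `c k` are
good. The balls of the end are those of the places up to `c k`, the balls of the class theorem those of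
the places up to `c (k + f)`.
-/

set_option autoImplicit false

namespace Pool.ST76

open Finset Real MvPolynomial
open Pool.Agent.H49.Ent Pool.Agent.H32.Dense
open Pool.STK hiding pr2
open Pool.KA Pool.KSAT Pool.K2S Pool.PB Pool.S6C
open Pool.GEN Pool.CHT Pool.CHX Pool.ISO Pool.D2R
open Pool.V0T (LbT ggT)
open Pool.VA83 (OutA)
open Pool.AJW (CfB)
open Pool.BFL (Pb)
open Pool.PB.Trl (rt)
open Pool.LBT (ThrOf)
open Pool.T4E

/-- **The end** for the place `c k`, with the constant `C`. `Ek`, `Ef`: the exponents of the balls for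
the places up to `k`, up to `k + f`. -/
def EndA (k f m D D' C : ℕ) : Prop := ∀ {S : PCl m}
    {P : List (Fin m) × Fin m → ℝ → ℝ → ℝ} {θ Ek Ef e s₁ h h₂ ζ : ℝ} {c : ℕ → Fin m}
    {C₀ a' ηm ζ₀ ι φ u K₁ cT κT : ℝ} {o η σ r₀ : ℕ → ℝ} {sn : ℕ → ℝ → ℝ} {lv : ℕ → ℕ → ℝ}
    {bk bf : ℕ → ℕ → ℝ} {Dr N nb n : ℕ} {w a : ℚ} {q₁ : ℝ} (zz : ℕ → ℕ → ℕ → ℕ),
    S.Ne → TmC S 6 →
    (∀ (τ : ℝ) (J : ℕ) (F : Fam m J) (A : F.Ω → Prop), S.St τ J F A → 0 < Pe F.p A) →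
    TmH S → Set.InjOn c (Set.Iio (k + f + 1)) → D ≤ Dr → nb + n ≤ N →
    (∀ t < nb, o t ≤ o (t + 1)) → 0 < ζ₀ → C * (C₀ * ηm) ≤ ζ₀ →
    (∀ t ≤ nb, ∀ l < k, C * |lv t l - o t - (lv nb l - o nb)| ≤ ζ₀) →
    -- the room
    (∀ t, t = nb ∨ t = nb + n → o t + C * ζ₀ ≤ 1 ∧ (∀ l ≤ k + f, C * ζ₀ ≤ lv t l) ∧
      (∀ l ≤ k, Ek + lv t l + C * ζ₀ ≤ 1) ∧ ∀ l ≤ k + f, Ef + lv t l + C * ζ₀ ≤ 1) →
    0 ≤ o 0 → o 0 < 1 → o nb + 2 * φ ≤ w → w ≤ o nb + ζ₀ → 0 ≤ w → w < 1 → 0 ≤ φ → φ ≤ ζ₀ →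
    0 ≤ ι * u → 0 < K₁ → 0 < cT → 0 < κT →
    -- the numbers
    ThrOf (chsys m θ) S P → C * (ι * u + ζ₀) ≤ ζ →
    PivN P θ c k 0 C Ek o lv nb (nb + n) w a q₁ (s₁ * u) h h₂ e ζ →
    -- the radii
    (∃ J₁ : ℕ, ∀ J ≥ J₁, (∀ t ≤ N, ∀ j ≤ 2, r₀ t * J ≤ zz J t j ∧
        zz J t j ≤ ⌊a' * J⌋₊ - ⌊o t * J⌋₊) ∧
      (∀ t < nb + n, zz J t 0 = ⌊o (t + 1) * J⌋₊ - ⌊o t * J⌋₊) ∧ (zz J nb 1 : ℝ) ≤ q₁ * J ∧
      2 * φ * J + 1 ≤ zz J nb 1 ∧ ⌊o nb * J⌋₊ + zz J nb 2 ≤ ⌊(a : ℝ) * J⌋₊ ∧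
      (a : ℝ) * J ≤ ⌊o nb * J⌋₊ + zz J nb 2 + ζ₀ * J + 2) →
    -- the windows
    (∀ κ : ℝ, 0 < κ → Bas S (fun J F A => ∀ z : ℕ → ℕ → ℕ,
      (∀ t ≤ N, ∀ j ≤ 2, r₀ t * J ≤ z t j ∧ z t j ≤ ⌊a' * J⌋₊ - ⌊o t * J⌋₊) →
      ∃ (B : F.Ω → Prop) (g₀ : ℕ → ℕ → ℕ) (G : ℕ → PtT F → ℕ → MvPolynomial (Option (Fin m)) ℝ)
        (H : ℕ → LnT F → ℕ → MvPolynomial (Option (Fin m)) ℝ), Sub B A ∧
        Pe F.p A ≤ K₁ * Pe F.p B ∧
        WinB F c k D Dr N 2 C₀ a' Ek ηm o η σ lv bk κ z B g₀ G H)) →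
    (∀ κ : ℝ, 0 < κ → Bas S (fun J F A => ∀ z : ℕ → ℕ → ℕ,
      (∀ t ≤ N, ∀ j ≤ 2, r₀ t * J ≤ z t j ∧ z t j ≤ ⌊a' * J⌋₊ - ⌊o t * J⌋₊) →
      ∃ (B : F.Ω → Prop) (g₀ : ℕ → ℕ → ℕ) (G : ℕ → PtT F → ℕ → MvPolynomial (Option (Fin m)) ℝ)
        (H : ℕ → LnT F → ℕ → MvPolynomial (Option (Fin m)) ℝ), Sub B A ∧
        Pe F.p A ≤ K₁ * Pe F.p B ∧
        WinB F c (k + f) D Dr N 2 C₀ a' Ef ηm o η σ lv bf κ z B g₀ G H)) →
    -- the class theorem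
    Bas S (fun J F A => ∀ {κ : ℝ} {g₀ : ℕ → ℕ → ℕ}
      {Gc : ℕ → PtT F → ℕ → MvPolynomial (Option (Fin m)) ℝ}
      {H : ℕ → LnT F → ℕ → MvPolynomial (Option (Fin m)) ℝ}, κ ≤ κT →
      WinB F c (k + f) D Dr N 2 C₀ a' Ef ηm o η σ lv bf κ (zz J) A g₀ Gc H →
      (∀ l < k, CfB F ⌊o 0 * J⌋₊ 1 (c l) A (fun s => s) (fun s => H 0 s l)) →
      ∃ (B : F.Ω → Prop) (GN : PtT F → ℕ → MvPolynomial (Option (Fin m)) ℝ)
        (HN : LnT F → ℕ → MvPolynomial (Option (Fin m)) ℝ), Sub B A ∧ cT * Pe F.p A ≤ Pe F.p B ∧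
        LbT F c k f D' (o nb) u φ 1 sn B (g₀ nb) (Gc nb) GN HN ∧
        OutA F c k D' (o nb) u φ ι s₁ B Gc GN 0 (nb + n) (g₀ nb)) →
    False

/-- **The end** for the place `c k`. -/
theorem end_a (m D D' k f : ℕ) (hD : 1 ≤ D) (hDD : D ≤ D') : ∃ C : ℕ, 10 ≤ C ∧
    EndA k f m D D' C := by
  obtain ⟨Cp, hCp, hpiv⟩ := piv_end2 m D D' k f 0 hD hDD (Nat.zero_le f)
  obtain ⟨Cr, hCr, hro⟩ := winb_rout m D (k + f) hD
  obtain ⟨Cs, hCs, hrs⟩ := winb_rout m D k hD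
  obtain ⟨Cn, hCn, hnear⟩ := v0_near D k
  obtain ⟨Cc, hCc, hconv⟩ := near_conv D' (k + f)
  obtain ⟨C₅, hC₅, htwo⟩ := Pool.V0T.winb_twos (k + f)
  obtain ⟨C, hC⟩ : ∃ C : ℕ, C = Cp + Cr + Cs + 4 * Cn + 4 * Cc * C₅ + 10 := ⟨_, rfl⟩
  have hCpC : Cp ≤ C := by omega
  have hCrC : (Cr : ℝ) ≤ C := by
    have : Cr ≤ C := by omega
    exact_mod_cast this
  have hCsC : (Cs : ℝ) ≤ C := by
    have : Cs ≤ C := by omega
    exact_mod_cast this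
  have hCr1 : (1 : ℝ) ≤ Cr := by exact_mod_cast hCr
  have hCs1 : (1 : ℝ) ≤ Cs := by exact_mod_cast hCs
  have hCn1 : (1 : ℝ) ≤ Cn := by exact_mod_cast hCn
  have hCc1 : (1 : ℝ) ≤ Cc := by exact_mod_cast hCc
  have hC51 : (1 : ℝ) ≤ C₅ := by exact_mod_cast hC₅
  have hCnC : 4 * (Cn : ℝ) ≤ C := by
    have : 4 * Cn ≤ C := by omega
    exact_mod_cast this
  have hC5C : 4 * (Cc : ℝ) * C₅ ≤ C := by
    have : 4 * Cc * C₅ ≤ C := by omega
    exact_mod_cast this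
  have hC10 : (10 : ℝ) ≤ C := by
    have : 10 ≤ C := by omega
    exact_mod_cast this
  refine ⟨C, by omega, ?_⟩
  intro S P θ Ek Ef e s₁ h h₂ ζ c C₀ a' ηm ζ₀ ι φ u K₁ cT κT o η σ r₀ sn lv bk bf Dr N nb n w a q₁
    zz hne htm hpos hT hc hDr hN hmo hζ₀ hCη hsl hroom ho00 ho01 hφw w2 w3 w6 hφ0 hφζ hι hK₁ hcT hκT
    hP hζC hPv hzz hwk hwf hVc
  -- the class theorem without the bound on the own paths
  have hcf := Pool.V0C62.cfb_stmt htm hpos D k (E := 1) (fun _ => o 0) (fun l => (range l).image c)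
    c one_pos (fun _ _ => ⟨ho00, ho01⟩)
  have hVb := bas_evU hVc (κ := 1 / 2) (by norm_num)
  have hV : Bas S (fun J F A => ∀ {κ : ℝ} {g₀ : ℕ → ℕ → ℕ}
      {Gc : ℕ → PtT F → ℕ → MvPolynomial (Option (Fin m)) ℝ}
      {H : ℕ → LnT F → ℕ → MvPolynomial (Option (Fin m)) ℝ}, κ ≤ κT / 2 →
      WinB F c (k + f) D Dr N 2 C₀ a' Ef ηm o η σ lv bf κ (zz J) A g₀ Gc H →
      ∃ (B : F.Ω → Prop) (GN : PtT F → ℕ → MvPolynomial (Option (Fin m)) ℝ)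
        (HN : LnT F → ℕ → MvPolynomial (Option (Fin m)) ℝ), Sub B A ∧
        cT / 2 * Pe F.p A ≤ Pe F.p B ∧
        LbT F c k f D' (o nb) u φ 1 sn B (g₀ nb) (Gc nb) GN HN ∧
        OutA F c k D' (o nb) u φ ι s₁ B Gc GN 0 (nb + n) (g₀ nb)) := by
    refine Bas.mono 0 (hcf.and hVb) ?_
    rintro J - F A ⟨b2, b3⟩ κ g₀ Gc H hκ W
    have hp := Pe_nonneg F.isLaw
    obtain ⟨B₁, hB₁, hPB₁, hcfB⟩ := b2 (fun l => g₀ 0 l)
      (fun l => {p : MvPolynomial (Option (Fin m)) ℝ // p.totalDegree ≤ D ∧ DepC c l p})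
      (fun l y => ⟨Gc 0 y l, (W.ev 0 (Nat.zero_le _)).ball.degG y l,
        (W.ev 0 (Nat.zero_le _)).ball.depG y l⟩)
      (fun l s => ⟨H 0 s l, (W.ev 0 (Nat.zero_le _)).ball.degH s l,
        (W.ev 0 (Nat.zero_le _)).ball.depH s l⟩) (fun l v => v.1)
      (fun l hl => winb_lbp W (k := 0) (l := l) (Nat.zero_le _) (by omega))
    have hW₁ := W.res (B' := B₁) (κ₁ := 1 / 2) (κ₂ := 2 * max κ 0) hB₁ (by linarith)
      (by positivity) (by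
        have := le_max_left κ 0
        linarith)
    obtain ⟨B, GN, HN, hB, hPB, hL, hO⟩ := b3 B₁ hB₁ (by linarith) (by
      rcases le_total κ 0 with h1 | h1
      · rw [max_eq_right h1]
        linarith
      · rw [max_eq_left h1]
        linarith) hW₁ (fun l hl => hcfB l hl)
    refine ⟨B, GN, HN, fun ω hω => hB₁ ω (hB ω hω), ?_, hL, hO⟩
    have h1 : cT * (Pe F.p A / 2) ≤ cT * Pe F.p B₁ := mul_le_mul_of_nonneg_left hPB₁ hcT.le
    linarith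
  clear hVc hVb hcf
  have hCζ : ζ₀ ≤ C * ζ₀ := le_mul_of_one_le_left hζ₀.le (by linarith)
  -- the exponent of the constants
  have hCη' : ∀ x : ℝ, 1 ≤ x → x ≤ C → x * (C₀ * ηm) ≤ ζ₀ := by
    intro x h1 h2
    rcases le_or_gt (C₀ * ηm) 0 with h4 | h4
    · have : x * (C₀ * ηm) ≤ 0 := mul_nonpos_of_nonneg_of_nonpos (by linarith) h4
      linarith
    · exact (mul_le_mul_of_nonneg_right h2 h4.le).trans hCη
  have hCη1 : C₀ * ηm ≤ ζ₀ := by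
    have := hCη' 1 le_rfl (by linarith)
    rwa [one_mul] at this
  have hζ0 : 0 < ζ ∧ 10 * ζ₀ ≤ ζ := by
    have h3 : 10 * ζ₀ ≤ C * (ι * u + ζ₀) := by
      have h4 : 10 * ζ₀ ≤ C * ζ₀ := mul_le_mul_of_nonneg_right hC10 hζ₀.le
      have h5 : 0 ≤ C * (ι * u) := mul_nonneg (by linarith only [hC10]) hι
      rw [mul_add]
      linarith only [h4, h5]
    exact ⟨by linarith, by linarith⟩
  obtain ⟨hζv0, hζv⟩ := hζ0
  have hpvN : PivN P θ c k 0 Cp Ek o lv nb (nb + n) w a q₁ (s₁ * u) h h₂ e ζ := by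
    have h1 : (Cp : ℝ) * ζ ≤ C * ζ := by
      refine mul_le_mul_of_nonneg_right ?_ hζv0.le
      exact_mod_cast hCpC
    exact { hPv with
      hE := by linarith [hPv.hE]
      g1 := by linarith [hPv.g1]
      g2 := by linarith [hPv.g2]
      g3 := by linarith [hPv.g3]
      g4 := by linarith [hPv.g4]
      g5 := fun l hl => by linarith [hPv.g5 l hl]
      g6 := fun l hl => by linarith [hPv.g6 l hl] }
  -- the end of the place
  obtain ⟨δ, hδ, hend⟩ := hpiv (S := S) (P := P) (θ := θ) (c := c) (C₀ := C₀) (a' := a')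
      (Eb := Ek) (ηm := ηm) (ζ₀ := ζ₀) (ζ := ζ) (ι := ι * u) (zt := 0) (x := s₁ * u) (o := o)
      (η := η) (σ := σ) (lv := lv) (Dr := Dr) (N := N) (M := 2) (kb := 0) (kw := nb)
      (kn := nb + n) (nv := nb + n) (w := w) (a := a) (q₁ := q₁) (s₁ := s₁ * u) (h := h)
      (h₂ := h₂) (e := e) hP hT hc (Nat.zero_le _) (by omega) hN hN
      (by linarith) w2 w3 w6 hζ₀ hCη1 hι le_rfl (by
        rw [add_zero]
        refine le_trans (mul_le_mul_of_nonneg_right ?_ (by linarith)) hζC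
        exact_mod_cast hCpC) hpvN le_rfl (fun l hl => by
        obtain rfl : l = 0 := by omega
        linarith)
  -- the masses
  obtain ⟨mm, hmm⟩ : ∃ mm : ℝ, mm = cT / 2 * (1 / 2) := ⟨_, rfl⟩
  have hmm0 : 0 < mm := by rw [hmm]; positivity
  -- the outputs of the balls
  have hζr : ∀ x : ℝ, 1 ≤ x → 0 < ζ₀ / x ∧ x * (ζ₀ / x) = ζ₀ := by
    intro x h1
    have : 0 < x := by linarith
    exact ⟨by positivity, by field_simp⟩
  have hroC : ∀ x : ℝ, 1 ≤ x → x ≤ C → C₀ * ηm ≤ ζ₀ / x := by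
    intro x h1 h2
    rw [le_div_iff₀ (by linarith), mul_comm]
    exact hCη' _ h1 h2
  obtain ⟨κ₁, hκ₁, hro1⟩ := hro (S := S) (c := c) (C₀ := C₀) (a := a') (Eb := Ef)
    (ηm := ηm) (ζ := ζ₀ / Cr) (κ₀ := mm / (2 * K₁ ^ 2)) (o := o) (η := η) (σ := σ) (lv := lv)
    (Dr := Dr) (N := N) (M := 2) [nb + n] hT hc hDr (hζr Cr hCr1).1 (by positivity)
    (hroC Cr hCr1 hCrC)
    (fun t ht => by
      obtain ⟨a1, a2, a3, a4⟩ := hroom t (Or.inr (by simpa using ht))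
      have ht' : t = nb + n := by simpa using ht
      rw [(hζr Cr hCr1).2]
      exact ⟨by omega, by linarith, fun l hl => ⟨by linarith [a2 l hl], by linarith [a4 l hl]⟩⟩)
  obtain ⟨κ₂, hκ₂, hro2⟩ := hrs (S := S) (c := c) (C₀ := C₀) (a := a') (Eb := Ek)
      (ηm := ηm) (ζ := ζ₀ / Cs) (κ₀ := mm / (64 * K₁ ^ 2)) (o := o) (η := η) (σ := σ) (lv := lv)
      (Dr := Dr) (N := N) (M := 2) [nb] hT (hc.mono fun y hy => by
        rw [Set.mem_Iio] at hy ⊢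
        omega) hDr (hζr Cs hCs1).1 (by positivity) (hroC Cs hCs1 hCsC)
      (fun t ht => by
      obtain ⟨a1, a2, a3, a4⟩ := hroom t (Or.inl (by simpa using ht))
      have ht' : t = nb := by simpa using ht
      rw [(hζr Cs hCs1).2]
      exact ⟨by omega, by linarith, fun l hl => ⟨by linarith [a2 l (by omega)],
        by linarith [a3 l hl]⟩⟩)
  obtain ⟨κA, hκA⟩ : ∃ κA : ℝ, κA = min (min κ₁ (κT / 2)) (mm / (2 * C₅ * K₁)) := ⟨_, rfl⟩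
  have hκA0 : 0 < κA := by
    rw [hκA]
    exact lt_min (lt_min hκ₁ (by positivity)) (by positivity)
  have hκA1 : κA ≤ κ₁ := by rw [hκA]; exact (min_le_left _ _).trans (min_le_left _ _)
  have hκA2 : κA ≤ κT / 2 := by rw [hκA]; exact (min_le_left _ _).trans (min_le_right _ _)
  obtain ⟨κB, hκB⟩ : ∃ κB : ℝ, κB = min κ₂ (1 / (2 * C₅)) := ⟨_, rfl⟩
  have hκB0 : 0 < κB := by
    rw [hκB]
    exact lt_min hκ₂ (by positivity)
  have hwk' := bas_evU (hwk κB hκB0) (κ := mm / K₁) (by positivity)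
  have hV' := bas_evU hV (κ := 1 / K₁) (by positivity)
  obtain ⟨J₁, hzz⟩ := hzz
  -- the closeness
  obtain ⟨ηq, hηq⟩ : ∃ ηq : ℝ, ηq = ζ₀ / (4 * Cc * C₅) := ⟨_, rfl⟩
  have hηq0 : 0 < ηq := by rw [hηq]; positivity
  have hηq1 : C₅ * ηq * (4 * Cc) = ζ₀ := by rw [hηq]; field_simp
  obtain ⟨J₂, hJ₂⟩ := exists_nat_gt (max (((nb : ℝ) + 4) / (ζ₀ / (2 * Cn)))
    (max ((4 * Cc + 10) / ζ₀) (max (1 / ηq)
      (Real.log (32 ^ 2 * (2 * K₁ ^ 2 / mm) + 1) / δ))))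
  refine Pool.LBT.bas_false hne (Φ := fun _ _ _ => False) ?_ ⟨1, one_pos, 0,
    fun _ _ _ _ _ h => h⟩
  refine Bas.mono (max (max J₁ J₂) 1) (((hwf κA hκA0).and hV').and
    (hro1.and ((hend.and (hro2.and hwk')).and
    (show Bas S (fun J F A => 0 < Pe F.p A) from
      ⟨1, one_pos, 0, fun J _ F A h1 => hpos 1 J F A h1⟩)))) ?_
  rintro J hJ F A ⟨⟨b1, b3⟩, b4, ⟨b5, b7, b6⟩, hA⟩
  have hJ1 : J₁ ≤ J := (le_max_left _ _).trans ((le_max_left _ _).trans hJ)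
  have hJ2 : J₂ ≤ J := (le_max_right _ _).trans ((le_max_left _ _).trans hJ)
  have hJ3 : 1 ≤ J := (le_max_right _ _).trans hJ
  have hJ0 : (0 : ℝ) < J := by exact_mod_cast hJ3
  have hJ2R : (J₂ : ℝ) ≤ J := by exact_mod_cast hJ2
  have hp := Pe_nonneg F.isLaw
  have hK0 : 0 < K₁ := hK₁
  obtain ⟨z1, z2, z4, z5, z6, z7⟩ := hzz J hJ1
  have j1 : ((nb : ℝ) + 4) ≤ ζ₀ / (2 * Cn) * J := by
    have h1 := ((le_max_left _ _).trans_lt hJ₂).le.trans hJ2R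
    rw [div_le_iff₀ (show 0 < ζ₀ / (2 * Cn) by positivity)] at h1
    linarith
  have j2 : 4 * Cc + 10 ≤ ζ₀ * J := by
    have h1 := (((le_max_left _ _).trans (le_max_right _ _)).trans_lt hJ₂).le.trans hJ2R
    rw [div_le_iff₀ hζ₀] at h1
    linarith
  have j4 : 1 ≤ ηq * J := by
    have h1 := (((le_max_left _ _).trans ((le_max_right _ _).trans
      (le_max_right _ _))).trans_lt hJ₂).le.trans hJ2R
    rw [div_le_iff₀ hηq0] at h1
    linarith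
  have j3 : Real.log (32 ^ 2 * (2 * K₁ ^ 2 / mm) + 1) < δ * J := by
    have h1 := (((le_max_right _ _).trans ((le_max_right _ _).trans
      (le_max_right _ _))).trans_lt hJ₂).trans_le hJ2R
    rw [div_lt_iff₀ hδ] at h1
    linarith
  -- the events
  obtain ⟨B₀, g₀, G, H, hB₀, hPB₀, W⟩ := b1 (zz J) z1
  have hPB₀' : 1 / K₁ * Pe F.p A ≤ Pe F.p B₀ := by
    rw [one_div, inv_mul_le_iff₀ hK0]
    exact hPB₀
  obtain ⟨A₁, GN, HN, n1, n2, hLb, n7, n8, Wn, mu, m1, m2, m6, m7⟩ := b3 B₀ hB₀ hPB₀' hκA2 W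
  obtain ⟨κN, n6⟩ := hLb.near
  have n3 := hLb.deg
  have n4 := hLb.dep
  have n5 := hLb.cls
  have hPA₁ : 0 < Pe F.p A₁ := by
    have h1 : 0 < 1 / K₁ * Pe F.p A := by positivity
    have h2 : 0 < Pe F.p B₀ := h1.trans_le hPB₀'
    exact lt_of_lt_of_le (by positivity) n2
  obtain ⟨A', hA'e⟩ : ∃ A' : F.Ω → Prop, A' = fun ω => A₁ ω ∧ ¬ ∃ i < k,
      (2 : ℝ) ^ (-(s₁ * u * J)) < |ggT F c k G GN 0 (nb + n) (g₀ nb) k ω i -
        (mu (slam F Wn ω) i).eval (rt F Wn ω)| := ⟨_, rfl⟩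
  have m3 : Sub A' A₁ := fun ω hω => by
    rw [hA'e] at hω
    exact hω.1
  have m4 : 1 / 2 * Pe F.p A₁ ≤ Pe F.p A' := by
    have h1 := Pool.V0F.good_half hPA₁ m7
    rw [hA'e]
    linarith
  have m8 : ∀ ω, A' ω → ∀ i < k, |ggT F c k G GN 0 (nb + n) (g₀ nb) k ω i -
        (mu (slam F Wn ω) i).eval (rt F Wn ω)| ≤ (2 : ℝ) ^ (-(s₁ * u * J)) := fun ω hω i hi => by
    rw [hA'e] at hω
    by_contra h1
    exact hω.2 ⟨i, hi, not_le.1 h1⟩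
  have hA'₀ : Sub A' B₀ := fun ω hω => n1 ω (m3 ω hω)
  have hPA'₀ : mm * Pe F.p B₀ ≤ Pe F.p A' := by
    calc mm * Pe F.p B₀ = 1 / 2 * (cT / 2 * Pe F.p B₀) := by rw [hmm]; ring
      _ ≤ 1 / 2 * Pe F.p A₁ := mul_le_mul_of_nonneg_left n2 (by norm_num)
      _ ≤ _ := m4
  have hPA' : mm / K₁ * Pe F.p A ≤ Pe F.p A' := by
    calc mm / K₁ * Pe F.p A = mm * (1 / K₁ * Pe F.p A) := by ring
      _ ≤ mm * Pe F.p B₀ := mul_le_mul_of_nonneg_left hPB₀' hmm0.le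
      _ ≤ _ := hPA'₀
  obtain ⟨B₂, g₂, G₂, H₂, hB₂, hPB₂, W₂⟩ := b6 A'
    (fun ω hω => hB₀ ω (hA'₀ ω hω)) hPA' (zz J) z1
  have hB₂₀ : Sub B₂ B₀ := fun ω hω => hA'₀ ω (hB₂ ω hω)
  have hB₂A : Sub B₂ A := fun ω hω => hB₀ ω (hB₂₀ ω hω)
  have hPB₂₀ : mm / K₁ * Pe F.p B₀ ≤ Pe F.p B₂ := by
    have h1 : Pe F.p A' ≤ K₁ * Pe F.p B₂ := hPB₂
    have h2 := hPA'₀.trans h1
    rw [div_mul_eq_mul_div, div_le_iff₀ hK0, mul_comm (Pe F.p B₂)]
    exact h2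
  have W₁ : WinB F c (k + f) D Dr N 2 C₀ a' Ef ηm o η σ lv bf (1 / (2 * C₅)) (zz J)
      B₂ g₀ G H := winb_res W hB₂₀ hPB₂₀ (by positivity) (by
    have h1 : κA ≤ mm / (2 * C₅ * K₁) := by rw [hκA]; exact min_le_right _ _
    refine h1.trans (le_of_eq ?_)
    field_simp)
  -- the two families
  have hηm0 : 0 ≤ ηm := (W.hη 0 (Nat.zero_le _)).1.trans (W.hη 0 (Nat.zero_le _)).2
  have hηmq : ηm ≤ ηq := by
    have h0 : (1 : ℝ) ≤ 4 * Cc * C₅ := by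
      have h4 : (1 : ℝ) ≤ 4 * Cc := by linarith only [hCc1]
      have h5 : (4 : ℝ) * Cc * 1 ≤ 4 * Cc * C₅ :=
        mul_le_mul_of_nonneg_left hC51 (by linarith only [h4])
      linarith only [h4, h5]
    have h1 : 4 * Cc * C₅ * (C₀ * ηm) ≤ ζ₀ := hCη' _ h0 hC5C
    have h2 : ηm ≤ C₀ * ηm := le_mul_of_one_le_left hηm0 W.C1
    have h3 : 4 * Cc * C₅ * ηm ≤ 4 * Cc * C₅ * (C₀ * ηm) :=
      mul_le_mul_of_nonneg_left h2 (by linarith only [h0])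
    rw [hηq, le_div_iff₀ (by positivity), mul_comm]
    exact h3.trans h1
  obtain ⟨B₃, hB₃, hPB₃, hcl⟩ := htwo W₁ W₂ (r₂ := k) (by omega) le_rfl hDr hDr hDr hDr hc
    (κ := 1 / (2 * C₅)) (by positivity) le_rfl (by rw [hκB]; exact min_le_right _ _) hηmq hηmq j4
    (n := 1) (k₁ := fun _ => nb) (k₂ := fun _ => nb)
    (fun i _ => ⟨by omega, by omega, rfl, fun _ _ => rfl⟩)
  have hPB₃' : 1 / 2 * Pe F.p B₂ ≤ Pe F.p B₃ := by
    refine le_trans (mul_le_mul_of_nonneg_right (le_of_eq ?_) (hp _)) hPB₃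
    push_cast
    field_simp
    norm_num
  have hPB₂A : mm / K₁ ^ 2 * Pe F.p A ≤ Pe F.p B₂ := by
    calc mm / K₁ ^ 2 * Pe F.p A = mm / K₁ * (1 / K₁ * Pe F.p A) := by field_simp
      _ ≤ mm / K₁ * Pe F.p B₀ := mul_le_mul_of_nonneg_left hPB₀' (by positivity)
      _ ≤ _ := hPB₂₀
  have hPB₃A : mm / (2 * K₁ ^ 2) * Pe F.p A ≤ Pe F.p B₃ := by
    have h1 : mm / (2 * K₁ ^ 2) * Pe F.p A = 1 / 2 * (mm / K₁ ^ 2 * Pe F.p A) := by field_simp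
    rw [h1]
    exact (mul_le_mul_of_nonneg_left hPB₂A (by norm_num)).trans hPB₃'
  obtain ⟨B₄, hB₄, hPB₄, hout1⟩ := b4 (zz J) κA bf B₀ g₀ G H B₃ W hκA1 hB₀
    (fun ω hω => hB₂₀ ω (hB₃ ω hω)) hPB₃A
  have hPB₄' : Pe F.p B₃ ≤ 32 * Pe F.p B₄ := by simpa using hPB₄
  have hPB₄A : mm / (64 * K₁ ^ 2) * Pe F.p A ≤ Pe F.p B₄ := by
    have h1 : mm / (64 * K₁ ^ 2) * Pe F.p A = mm / (2 * K₁ ^ 2) * Pe F.p A / 32 := by
      field_simp
      norm_num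
    rw [h1]
    linarith
  obtain ⟨B₅, hB₅, hPB₅, hout2⟩ := b7 (zz J) κB bk B₂ g₂ G₂ H₂ B₄ W₂ (by
    rw [hκB]; exact min_le_left _ _) hB₂A (fun ω hω => hB₃ ω (hB₄ ω hω)) hPB₄A
  have hPB₅' : Pe F.p B₄ ≤ 32 * Pe F.p B₅ := by simpa using hPB₅
  have hB₅₃ : Sub B₅ B₃ := fun ω hω => hB₄ ω (hB₅ ω hω)
  have hB₅₂ : Sub B₅ B₂ := fun ω hω => hB₃ ω (hB₅₃ ω hω)
  have hB₅A' : Sub B₅ A' := fun ω hω => hB₂ ω (hB₅₂ ω hω)
  have hB₅₁ : Sub B₅ A₁ := fun ω hω => m3 ω (hB₅A' ω hω)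
  have hB₅₀ : Sub B₅ B₀ := fun ω hω => hB₂₀ ω (hB₅₂ ω hω)
  rw [(hζr Cr hCr1).2] at hout1
  rw [(hζr Cs hCs1).2] at hout2
  -- the windows
  have hfl1 : ⌊o 0 * J⌋₊ ≤ ⌊o nb * J⌋₊ := by
    refine Nat.floor_le_floor (mul_le_mul_of_nonneg_right ?_ hJ0.le)
    have h1 : ∀ t ≤ nb, o 0 ≤ o t := by
      intro t
      induction t with
      | zero => intro _; exact le_rfl
      | succ t ih => intro ht; exact (ih (by omega)).trans (hmo t (by omega))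
    exact h1 nb le_rfl
  have hWw : Wn ≤ ⌊(w : ℝ) * J⌋₊ := by
    refine Nat.le_floor (m2.trans (mul_le_mul_of_nonneg_right hφw hJ0.le))
  have hWq : Wn ≤ ⌊o nb * J⌋₊ + zz J nb 1 := by
    have h1 := (Nat.lt_floor_add_one (o nb * (J : ℝ))).le
    have h2 : (Wn : ℝ) ≤ ((⌊o nb * J⌋₊ + zz J nb 1 : ℕ) : ℝ) := by
      have h3 : (o nb + 2 * φ) * J = o nb * J + 2 * φ * J := by ring
      rw [h3] at m2
      push_cast
      linarith only [m2, h1, z5]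
    exact_mod_cast h2
  -- the charts of the slope-one places are near
  obtain ⟨Y, hY⟩ : ∃ Y : ℕ, Y = ⌊ζ₀ / Cn * J⌋₊ := ⟨_, rfl⟩
  have e2 : ζ₀ / Cn * J = 2 * (ζ₀ / (2 * Cn) * J) := by
    field_simp
  have hn0 : (0 : ℝ) ≤ nb := Nat.cast_nonneg nb
  have hYR : ζ₀ / (2 * Cn) * J ≤ Y := by
    have h4 := (Nat.lt_floor_add_one (ζ₀ / Cn * (J : ℝ))).le
    rw [← hY, e2] at h4
    linarith
  have hYle : Cn * (Y : ℝ) ≤ ζ₀ * J := by
    have h4 : (Y : ℝ) ≤ ζ₀ / Cn * J := by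
      rw [hY]
      exact Nat.floor_le (by positivity)
    calc Cn * (Y : ℝ) ≤ Cn * (ζ₀ / Cn * J) := mul_le_mul_of_nonneg_left h4 (by linarith)
      _ = ζ₀ * J := by field_simp
  have hlin : ∀ x : ℝ, 2 * Cn * x ≤ ζ₀ → x * J ≤ Y := fun x hx => by
    refine le_trans (mul_le_mul_of_nonneg_right ?_ hJ0.le) hYR
    rw [le_div_iff₀ (by positivity)]
    linarith
  obtain ⟨κQ, hκQ0, hκQ⟩ := hnear W (fb := fun t => t) (jb := fun _ => 0) (nb := nb) (Y := Y) hc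
    (Nat.le_add_right k f) (fun t ht => by omega)
    (fun t ht => ⟨by omega, z2 t (by omega), hmo t ht⟩) (by
      have := hlin (C₀ * ηm) (hCη' _ (by linarith) (by linarith))
      rw [mul_assoc] at this
      exact this) (by
      have h4 : (3 : ℝ) ≤ Y := by linarith
      exact_mod_cast h4) (by
      have h4 : (nb : ℝ) ≤ Y := by linarith
      exact h4.trans (by exact_mod_cast Nat.lt_two_pow_self.le))
    (fun t ht l hl => by
      have h4 := hsl t ht l hl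
      have h5 : 2 * Cn * |lv t l - o t - (lv nb l - o nb)| ≤ ζ₀ :=
        (mul_le_mul_of_nonneg_right (by linarith) (abs_nonneg _)).trans h4
      have h6 := hlin _ h5
      have h7 := mul_le_mul_of_nonneg_right
        (le_abs_self (lv t l - o t - (lv nb l - o nb))) hJ0.le
      have h8 := mul_le_mul_of_nonneg_right
        (neg_le_abs (lv t l - o t - (lv nb l - o nb))) hJ0.le
      constructor
      · linarith
      · have h9 : lv nb l - o nb - (lv t l - o t) = -(lv t l - o t - (lv nb l - o nb)) := by ring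
        rw [h9]
        linarith)
  -- all closeness in the first family
  obtain ⟨κM, hκM⟩ : ∃ κM : F.Ω → ℕ → ℝ, κM = fun ω l => if l < k then κQ ω l else κN l ω :=
    ⟨_, rfl⟩
  have hn1 : ∀ ω, B₅ ω → ∀ l ≤ k, ∀ b,
      NBx c (G nb (ptr F J ω)) (g₀ nb) ⌊o nb * J⌋₊ (F.t ω) l b →
      |eval b (frQ G GN 0 k f (ptr F J ω) l) + κM ω l - eval b (G nb (ptr F J ω) l)| ≤
        2 ^ (⌊ζ₀ * J⌋₊ + 1) / 2 ^ g₀ nb l := by
    intro ω hω l hl b hb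
    rw [hκM]
    by_cases hlk : l < k
    · simp only [if_pos hlk]
      have h4 := hκQ ω (hB₅₀ ω hω) l hlk.le b hb
      rw [hyb_lo G hlk] at h4
      have e4 : frQ G GN 0 k f (ptr F J ω) l = G 0 (ptr F J ω) l := if_pos hlk
      rw [e4]
      refine h4.trans (div_le_div_of_nonneg_right (pow_le_pow_right₀ (by norm_num) ?_)
        (by positivity))
      exact (Nat.le_floor (by push_cast; exact hYle)).trans (Nat.le_succ _)
    · simp only [if_neg hlk]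
      have h4 := n6 l (by omega) (by omega) ω (hB₅₁ ω hω) b hb
      have e4 : frQ G GN 0 k f (ptr F J ω) l = GN (ptr F J ω) l := by
        unfold frQ
        rw [if_neg hlk, if_pos (by omega)]
      rw [e4]
      refine h4.trans (div_le_div_of_nonneg_right ?_ (by positivity))
      rw [← Real.rpow_natCast]
      refine Real.rpow_le_rpow_of_exponent_le one_le_two ?_
      push_cast
      have h5 := (Nat.lt_floor_add_one (ζ₀ * (J : ℝ))).le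
      have h6 := mul_le_mul_of_nonneg_right hφζ hJ0.le
      linarith
  -- closeness in the second family
  obtain ⟨Z, hZ⟩ : ∃ Z : ℕ, Z = ⌊C₅ * (ηq * J)⌋₊ + 1 := ⟨_, rfl⟩
  have hZ1 : C₅ * (ηq * J) ≤ Z := by
    rw [hZ]
    push_cast
    exact (Nat.lt_floor_add_one _).le
  have hZ2 : (Z : ℝ) ≤ C₅ * (ηq * J) + 1 := by
    rw [hZ]
    push_cast
    have := Nat.floor_le (show 0 ≤ C₅ * (ηq * J) by positivity)
    linarith
  have hZ3 : ηm * J ≤ Z := by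
    refine le_trans ?_ hZ1
    have h1 : ηm * J ≤ ηq * J := mul_le_mul_of_nonneg_right hηmq hJ0.le
    have h2 : ηq * J ≤ C₅ * (ηq * J) := le_mul_of_one_le_left (by positivity) hC51
    linarith
  have hg12 : ∀ l ≤ k, g₀ nb l ≤ g₂ nb l + Z ∧ g₂ nb l ≤ g₀ nb l + Z := by
    intro l hl
    obtain ⟨t1, t2⟩ := W.sds nb (by omega) l (by omega)
    obtain ⟨t3, t4⟩ := W₂.sds nb (by omega) l hl
    have t5 := mul_le_mul_of_nonneg_right (W.hσ nb (by omega)).2 hJ0.le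
    constructor
    · have h1 : (g₀ nb l : ℝ) ≤ ((g₂ nb l + Z : ℕ) : ℝ) := by
        push_cast
        linarith
      exact_mod_cast h1
    · have h1 : (g₂ nb l : ℝ) ≤ ((g₀ nb l + Z : ℕ) : ℝ) := by
        push_cast
        linarith
      exact_mod_cast h1
  have hZζ : Cc * ((Z : ℝ) + 1) ≤ ζ₀ * J ∧ (Z : ℝ) ≤ ζ₀ * J := by
    obtain ⟨X, hX⟩ : ∃ X : ℝ, X = C₅ * (ηq * J) := ⟨_, rfl⟩
    have h1 : X * (4 * Cc) = ζ₀ * J := by rw [hX, ← hηq1]; ring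
    have h3 : 0 < X := by rw [hX]; positivity
    rw [← hX] at hZ2
    have h4 : Cc * (Z : ℝ) ≤ Cc * (X + 1) :=
      mul_le_mul_of_nonneg_left hZ2 (by linarith only [hCc1])
    have h5 : Cc * (X + 1) = X * (4 * Cc) / 4 + Cc := by ring
    have h6 : X ≤ X * Cc := le_mul_of_one_le_right h3.le hCc1
    constructor
    · rw [mul_add, mul_one]
      linarith only [h4, h5, h1, j2]
    · linarith only [hZ2, h6, h1, j2, hCc1]
  have hn2 : ∀ ω, B₅ ω → ∀ l ≤ k, ∀ b,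
      NBx c (G₂ nb (ptr F J ω)) (g₂ nb) ⌊o nb * J⌋₊ (F.t ω) l b →
      |eval b (frQ G GN 0 k f (ptr F J ω) l) + κM ω l - eval b (G₂ nb (ptr F J ω) l)| ≤
        2 ^ ⌊ζ * J⌋₊ / 2 ^ g₂ nb l := by
    intro ω hω l hl b hb
    have hc2 := fun l' (hl' : l' ≤ k) => (hcl ω (hB₅₃ ω hω) 0 one_pos l' hl').1
    have hdegQ : (frQ G GN 0 k f (ptr F J ω) l).totalDegree ≤ D' := by
      unfold frQ
      split_ifs with h1 h2
      · exact ((W.ev 0 (by omega)).ball.degG _ l).trans hDD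
      · exact (n3 l (by omega) h2).1 _
      · rw [MvPolynomial.totalDegree_zero]
        exact Nat.zero_le _
    have hdepQ : DepC c l (frQ G GN 0 k f (ptr F J ω) l) := by
      unfold frQ
      split_ifs with h1 h2
      · exact (W.ev 0 (by omega)).ball.depG _ l
      · exact (n4 l (by omega) h2).1 _
      · exact fun b b' _ _ => by rw [map_zero, map_zero]
    have h1 := hconv (c := c) (G₁ := G nb (ptr F J ω)) (G₂ := G₂ nb (ptr F J ω))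
      (Q := frQ G GN 0 k f (ptr F J ω) l) (g₁ := g₀ nb) (g₂ := g₂ nb) (a := ⌊o nb * J⌋₊)
      (l := l) (Y := Z) (t := F.t ω) (κ := κM ω l) (M := 2 ^ (⌊ζ₀ * J⌋₊ + 1) / 2 ^ g₀ nb l)
      (by omega) (hc.mono fun y hy => by
        rw [Set.mem_Iio] at hy ⊢
        omega) (fun j => ((W.ev nb (by omega)).ball.degG _ j).trans hDD)
      (fun j => (W.ev nb (by omega)).ball.depG _ j) hdegQ hdepQ
      (fun j hj => (hg12 j (by omega)).1) (by positivity)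
      (fun j hj b' hb' => (hc2 j (by omega) b' hb').trans (div_le_div_of_nonneg_right
        (pow_le_pow_right₀ (by norm_num) (by rw [hZ]; omega)) (by positivity)))
      (hn1 ω hω l hl) b hb
    have h2 := hc2 l hl b hb
    have e1 : eval b (frQ G GN 0 k f (ptr F J ω) l) + κM ω l - eval b (G₂ nb (ptr F J ω) l) =
        (eval b (frQ G GN 0 k f (ptr F J ω) l) + κM ω l - eval b (G nb (ptr F J ω) l)) +
        (eval b (G nb (ptr F J ω) l) - eval b (G₂ nb (ptr F J ω) l)) := by ring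
    rw [e1]
    refine (abs_add_le _ _).trans ((add_le_add h1 h2).trans ?_)
    have h3 : (2 : ℝ) ^ (⌊ζ₀ * J⌋₊ + 1) / 2 ^ g₀ nb l ≤ 2 ^ (⌊ζ₀ * J⌋₊ + 1 + Z) / 2 ^ g₂ nb l := by
      rw [div_le_div_iff₀ (by positivity) (by positivity), ← pow_add, ← pow_add]
      refine pow_le_pow_right₀ (by norm_num) ?_
      have := (hg12 l hl).2
      omega
    have h4 : (2 : ℝ) ^ ⌊C₅ * (ηq * J)⌋₊ ≤ 2 ^ Z :=
      pow_le_pow_right₀ (by norm_num) (by rw [hZ]; omega)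
    have h5 : Cc * (Z + 1) + (⌊ζ₀ * J⌋₊ + 1 + Z) + 1 ≤ ⌊ζ * J⌋₊ := by
      have h6 := (Nat.floor_le (show 0 ≤ ζ₀ * (J : ℝ) by positivity))
      have h7 := mul_le_mul_of_nonneg_right hζv hJ0.le
      refine Nat.le_floor ?_
      push_cast
      linarith [hZζ.1, hZζ.2]
    calc (2 : ℝ) ^ (Cc * (Z + 1)) * (2 ^ (⌊ζ₀ * J⌋₊ + 1) / 2 ^ g₀ nb l) +
        2 ^ ⌊C₅ * (ηq * J)⌋₊ / 2 ^ g₂ nb l ≤
        2 ^ (Cc * (Z + 1)) * (2 ^ (⌊ζ₀ * J⌋₊ + 1 + Z) / 2 ^ g₂ nb l) + 2 ^ Z / 2 ^ g₂ nb l :=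
          add_le_add (mul_le_mul_of_nonneg_left h3 (by positivity))
            (div_le_div_of_nonneg_right h4 (by positivity))
      _ = (2 ^ (Cc * (Z + 1) + (⌊ζ₀ * J⌋₊ + 1 + Z)) + 2 ^ Z) / 2 ^ g₂ nb l := by
          rw [pow_add 2 (Cc * (Z + 1))]
          ring
      _ ≤ 2 ^ (Cc * (Z + 1) + (⌊ζ₀ * J⌋₊ + 1 + Z) + 1) / 2 ^ g₂ nb l := by
          refine div_le_div_of_nonneg_right ?_ (by positivity)
          have h8 : (2 : ℝ) ^ Z ≤ 2 ^ (Cc * (Z + 1) + (⌊ζ₀ * J⌋₊ + 1 + Z)) :=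
            pow_le_pow_right₀ (by norm_num) (by omega)
          rw [pow_succ]
          linarith
      _ ≤ _ := div_le_div_of_nonneg_right (pow_le_pow_right₀ (by norm_num) h5) (by positivity)
  have hgq : ∀ ω i, gnq F c (g₀ nb) G (frQ G GN 0 k f) 0 (nb + n) k (k + 0) ω i =
      ggT F c k G GN 0 (nb + n) (g₀ nb) k ω i := by
    intro ω i
    unfold gnq ggT
    have e3 : (fun y => frQ G GN 0 k f y (k + 0)) = fun y => GN y k := by
      funext y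
      unfold frQ
      rw [if_neg (by omega), if_pos (by omega)]
      rfl
    rw [e3]
    rfl
  -- the contradiction
  have hfin := b5 (zz J) κB κA bk bf B₂ B₀ g₂ g₀ G₂ G H₂ H 1 2 Wn Dr 2
    C₀ a' Ef (zz J) W₂ W hB₂A (by norm_num) le_rfl z4 z6 z7
    (hfl1.trans m1) m1 hWw hWq B₅ GN HN κM (fun _ _ => 0) (fun _ _ => 0) mu hB₅₂
    hB₅₀ (hout2 nb (by simp)) ((hout1 (nb + n) (by simp)).sub hB₅) n3 n4
    (fun l hl hl' ω hω => n5 l hl hl' ω (hB₅₁ ω hω)) hn2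
    (fun ω hω t ht i hi => by
      obtain rfl : t = 0 := by omega
      rw [hgq]
      exact n7 ω (hB₅₁ ω hω) i hi)
    (fun ω ν hω hν hpt t ht i hi => by
      obtain rfl : t = 0 := by omega
      rw [hgq, hgq]
      exact n8 ω ν (hB₅₁ ω hω) (hB₅₁ ν hν) hpt i hi)
    (fun ω hω l hl => absurd hl (Nat.not_lt_zero l))
    (fun ω hω l hl => absurd hl (Nat.not_lt_zero l)) m6
    (fun ω hω i hi => by
      have h4 := m8 ω (hB₅A' ω hω) i hi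
      rw [hgq, Finset.range_zero, Finset.sum_empty, add_zero]
      exact h4)
  have hPA : Pe F.p A ≤ 32 ^ 2 * (2 * K₁ ^ 2 / mm) * Pe F.p B₅ := by
    have h1 : Pe F.p A ≤ 2 * K₁ ^ 2 / mm * Pe F.p B₃ := by
      have h3 := mul_le_mul_of_nonneg_left hPB₃A (show 0 ≤ 2 * K₁ ^ 2 / mm by positivity)
      have e5 : 2 * K₁ ^ 2 / mm * (mm / (2 * K₁ ^ 2) * Pe F.p A) = Pe F.p A := by
        field_simp
      rwa [e5] at h3
    calc Pe F.p A ≤ 2 * K₁ ^ 2 / mm * Pe F.p B₃ := h1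
      _ ≤ 2 * K₁ ^ 2 / mm * (32 * (32 * Pe F.p B₅)) := by
          refine mul_le_mul_of_nonneg_left ?_ (by positivity)
          linarith
      _ = _ := by ring
  obtain ⟨K, hK⟩ : ∃ K : ℝ, K = 32 ^ 2 * (2 * K₁ ^ 2 / mm) := ⟨_, rfl⟩
  have hKp : 0 < K := by rw [hK]; positivity
  rw [← hK] at hPA j3
  have hex : (K + 1) * Real.exp (-(δ * J)) < 1 := by
    rw [Real.exp_neg, ← div_eq_mul_inv, div_lt_one (Real.exp_pos _)]
    rw [← Real.log_lt_iff_lt_exp (by positivity)]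
    exact j3
  have h1 : Pe F.p A ≤ K * (Real.exp (-(δ * J)) * Pe F.p A) :=
    hPA.trans (mul_le_mul_of_nonneg_left hfin hKp.le)
  have h2 : K * Real.exp (-(δ * J)) < 1 := by
    have := Real.exp_pos (-(δ * (J : ℝ)))
    linarith
  have h3 : K * (Real.exp (-(δ * J)) * Pe F.p A) = K * Real.exp (-(δ * J)) * Pe F.p A := by ring
  rw [h3] at h1
  have h4 : K * Real.exp (-(δ * J)) * Pe F.p A < 1 * Pe F.p A :=
    mul_lt_mul_of_pos_right h2 hA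
  linarith

end Pool.ST76
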